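import Pool.Agent.ME.N.IR_TE6
import Pool.Agent.MUX.UAll
import Pool.Agent.NS.G_Leg
import Pool.Agent.NS.ZSq

/-!
# ME, block IR (helper6, after helper87's `NS/IR_SUB.lean`): the fields `K B_n`, `D = -3`
-/

set_option autoImplicit false

namespace Pool.Agent.NSIR

open _root_.MU3 Pool.Agent.MU3 Pool.Agent.MU3A Pool.Agent.MU3B Pool.Agent.RI Pool.Agent.RID
  Pool.Agent.MUX Pool.Agent.MUXU Pool.Agent.MUXK Pool.Agent.MUXI Pool.Agent.NS Pool.Agent.NSRD
  Pool.Agent.NSI
open Pool.Agent.MU3I (w3 zt)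

noncomputable section

namespace SUBE

open Pool.Agent.ME TE6

variable {A B : ℤ} {P : Ideal (OO A B)}

/-- `P² = (3)` -/
theorem sq_eq (hc : CaseE3 A B) (hP : IsPN 3 P) : P ^ 2 = idl (A := A) (B := B) 3 := by
  have hA := hc.hA
  have hB := hc.eB
  apply le_antisymm
  · rw [pow_two, Ideal.mul_le]
    intro x hx y hy
    rw [mem_P hc hP] at hx hy
    obtain ⟨a, ha⟩ := hx
    obtain ⟨b, hb⟩ := hy
    rw [mem_three]
    have hx' : x.re = x.im + 3 * a := by omega
    have hy' : y.re = y.im + 3 * b := by omega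
    constructor
    · have e1 : (x * y).re = 3 * (x.im * b + a * y.im + 3 * a * b) + (A + 1) * (x.im * y.im) := by
        rw [QuadraticAlgebra.re_mul, hx', hy']
        ring
      rw [e1]
      refine ⟨x.im * b + a * y.im + 3 * a * b, ?_⟩
      linear_combination (x.im * y.im) * hA
    · have e1 : (x * y).im = 3 * (x.im * y.im + a * y.im + b * x.im) +
          (B - 1) * (x.im * y.im) := by
        rw [QuadraticAlgebra.im_mul, hx', hy']
        ring
      rw [e1]
      refine ⟨x.im * y.im + a * y.im + b * x.im, ?_⟩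
      linear_combination (x.im * y.im) * hB
  · rw [Ideal.span_singleton_le_iff_mem]
    have h1 : (⟨1, 1⟩ : OO A B) ∈ P := by
      rw [mem_P hc hP]
      simp
    have e1 : ((3 : ℕ) : OO A B) = (⟨1, 1⟩ * ⟨1, 1⟩) * ⟨1, -1⟩ := by
      have e2 : ((3 : ℕ) : OO A B) = ⟨3, 0⟩ := rfl
      rw [e2]
      ext
      · simp [hA, hB]
      · simp [hA, hB]
    rw [e1, pow_two]
    exact Ideal.mul_mem_right _ _ (Ideal.mul_mem_mul h1 h1)

theorem pow_eq (hc : CaseE3 A B) (hP : IsPN 3 P) (n : ℕ) :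
    P ^ (2 * n + 1) = Ideal.span {((3 ^ n : ℕ) : OO A B)} * P := by
  rw [pow_succ, pow_mul, sq_eq hc hP]
  congr 1
  rw [Ideal.span_singleton_pow]
  push_cast
  rfl

/-- the norm of `c ≡ 1` modulo `f P^(2n+1)` -/
theorem nm_one (hc : CaseE3 A B) (hP : IsPN 3 P)
    (f n : ℕ) {c : OO A B} (h : c - 1 ∈ lvR P f n) : ((3 ^ (n + 1) : ℕ) : ℤ) ∣ nm c - 1 := by
  have h1 : c - 1 ∈ Ideal.span {((3 ^ n : ℕ) : OO A B)} * P := by
    rw [← pow_eq hc hP]
    exact Ideal.mul_le_right h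
  obtain ⟨p, hp, hpc⟩ := Ideal.mem_span_singleton_mul.1 h1
  rw [mem_P hc hP] at hp
  obtain ⟨a, ha⟩ := hp
  have hre : p.re = p.im + 3 * a := by omega
  have e1 : c = ⟨1 + 3 ^ n * p.re, 3 ^ n * p.im⟩ := by
    have h4 : c = 1 + ((3 ^ n : ℕ) : OO A B) * p := by rw [hpc]; ring
    rw [h4]
    have e2 : ((3 ^ n : ℕ) : OO A B) = ⟨3 ^ n, 0⟩ := by
      ext
      · rw [QuadraticAlgebra.re_natCast]; push_cast; rfl
      · rw [QuadraticAlgebra.im_natCast]
    rw [e2]
    ext
    · simp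
      rfl
    · simp
      rfl
  have hA := hc.hA
  have hB := hc.eB
  have e3 : nm c - 1 = 3 ^ n * (3 * (p.im + 2 * a)) + 3 ^ n * 3 ^ n *
      (3 * (p.im ^ 2 + 3 * a * p.im + 3 * a ^ 2)) := by
    have e4 : nm c - 1 = 3 ^ n * (2 * p.re + B * p.im) + 3 ^ n * 3 ^ n *
        (p.re ^ 2 + B * p.re * p.im - A * p.im ^ 2) := by
      rw [e1]
      unfold nm
      simp only
      ring
    rw [e4, hre]
    linear_combination (3 ^ n * p.im + 3 ^ n * 3 ^ n * ((p.im + 3 * a) * p.im)) * hB -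
      3 ^ n * 3 ^ n * p.im ^ 2 * hA
  rw [e3]
  refine ⟨(p.im + 2 * a) + 3 ^ n * (p.im ^ 2 + 3 * a * p.im + 3 * a ^ 2), ?_⟩
  push_cast
  ring

end SUBE

open Pool.Agent.ME TE6 SUBE in
/-- (SUB) -/
theorem tp_SUB_E (h1 : Si_LAY) : Sp_SUB_E := by
  intro A B P V f hS hT hNL K hK n Bn hn hlay
  have hc : CaseE3 A B := hS.c3
  have hC : CQ A B := hc.toCQ
  have hP := hS.hP
  have hV := hS.hV
  have h3P : (3 : OO A B) ∈ P := by simpa using hP.mem
  have hq3 : q0 3 = 3 := by simp [q0]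
  have hlvdef : lvX 3 f n = f * 3 ^ (n + 1) := by
    unfold lvX
    rw [hq3]
    ring
  -- comparison of the ideals
  have hlvR : lvR P f n = idl f * (Ideal.span {((3 ^ n : ℕ) : OO A B)} * P) := by
    unfold lvR
    rw [pow_eq hc hP]
  have hle : idl (A := A) (B := B) (lvX 3 f n) ≤ lvR P f n := by
    rw [hlvR, Ideal.span_singleton_le_iff_mem]
    have e1 : ((lvX 3 f n : ℕ) : OO A B) = ((f : ℕ) : OO A B) * (((3 ^ n : ℕ) : OO A B) * 3) := by
      rw [hlvdef]
      push_cast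
      ring
    rw [e1]
    exact Ideal.mul_mem_mul (Ideal.mem_span_singleton_self _)
      (Ideal.mul_mem_mul (Ideal.mem_span_singleton_self _) h3P)
  have hle2 : lvR P f n ≤ idl (3 * f) := by
    obtain ⟨m, rfl⟩ : ∃ m, n = m + 1 := ⟨n - 1, by omega⟩
    rw [hlvR, ← mul_assoc, Ideal.span_singleton_mul_span_singleton]
    refine Ideal.mul_le_left.trans ?_
    rw [Ideal.span_singleton_le_span_singleton]
    refine ⟨((3 ^ m : ℕ) : OO A B), ?_⟩
    push_cast
    ring
  have hle4 : lvR P f n ≤ idl 2 := by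
    rw [hlvR]
    refine Ideal.mul_le_left.trans ?_
    rw [Ideal.span_singleton_le_span_singleton]
    obtain ⟨g, hg⟩ := hS.f2
    exact ⟨((g : ℕ) : OO A B), by rw [hg]; push_cast; rfl⟩
  have hf0 := hS.f0
  have hlv0 : lvX 3 f n ≠ 0 := by
    rw [hlvdef]
    positivity
  have hm : idl (A := A) (B := B) (lvX 3 f n) ≠ ⊥ := Pool.Agent.NSZ.idl_ne_bot hlv0
  have hmR : lvR P f n ≠ ⊥ := by
    intro h
    rw [h, le_bot_iff] at hle
    exact hm hle
  have hK' : K ≤ IntermediateField.restrictScalars ℚ (RFE (lvR P f n)) := by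
    intro x hx
    exact hT.mono _ _ hle2 (hK x hx)
  -- the roots of unity
  have halg : Algebra.IsAlgebraic ℚ
      ((RFE (lvR P f n)).restrictScalars ℚ : IntermediateField ℚ ℂ) := by
    refine ⟨fun x => (IntermediateField.isAlgebraic_iff).2 ?_⟩
    have hfin := hT.fin _ hmR
    have h2 : IsAlgebraic (kk A B) (⟨(x : ℂ), x.2⟩ : RFE (lvR P f n)) :=
      Algebra.IsAlgebraic.isAlgebraic _
    exact Pool.Agent.NSG.alg_of hC (h2.algebraMap (A := ℂ))
  have hz : ∀ z : ℂ, z ^ 3 ^ (n + 1) = 1 → z ∈ RFE (lvR P f n) := by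
    intro z hz
    have key := u_AUF ((RFE (lvR P f n)).restrictScalars ℚ) halg z (fun σ hσ => by
      have hσ' : ∀ y ∈ RFE (lvR P f n), σ y = y := fun y hy => hσ y hy
      have hfix : FixK A B σ :=
        hσ' _ (IntermediateField.algebraMap_mem (RFE (lvR P f n))
          (⟨wC A B, IntermediateField.mem_adjoin_simple_self ℚ (wC A B)⟩ : kk A B))
      obtain ⟨b, L, om, hL⟩ := hNL
      obtain ⟨a, hcop, ha⟩ := hT.act (idl (lvX 3 f n)) hm σ hfix
      obtain ⟨b', L', om', mu, hL', hA⟩ := ha b L om hL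
      have hA' : Pool.Agent.ME.ActE σ (lvR P f n) a L L' mu := by
        refine ⟨hA.kapE, ?_, hA.isq, fun z hz => hA.act z fun x hx => hz x (hle hx)⟩
        rw [Ideal.isCoprime_iff_sup_eq] at hcop ⊢
        rw [eq_top_iff, ← hcop]
        exact sup_le_sup_left hle a
      obtain ⟨c, hc1, hca⟩ :=
        (hT.triv _ a σ b L L' om mu hmR (Or.inl hle4) hfix hL hA' hL'.nrm).1 hσ'
      have h3 := (hT.zeta (3 ^ (n + 1)) (idl (lvX 3 f n)) a σ b L L' om mu hm hfix
        (pow_ne_zero _ (by norm_num)) (by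
          rw [Ideal.span_singleton_le_span_singleton]
          exact_mod_cast Nat.cast_dvd_cast ⟨f, by rw [hlvdef]; ring⟩) hL hA z hz).2
      rw [h3, hca]
      have h4 := nm_one hc hP f n hc1
      have hc0 : c ≠ 0 := by
        rintro rfl
        have h6 : (0 - 1 : OO A B) ∈ P := by
          have h7 : lvR P f n ≤ P := by
            rw [hlvR]
            exact (Ideal.mul_le_right).trans Ideal.mul_le_right
          exact h7 hc1
        apply hP.prime.ne_top
        rw [Ideal.eq_top_iff_one]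
        have h8 := P.neg_mem h6
        rwa [zero_sub, neg_neg] at h8
      have hnn : 0 ≤ nm c := by
        have h6 : 4 * nm c = (2 * c.re + B * c.im) ^ 2 - (B ^ 2 + 4 * A) * c.im ^ 2 := by
          unfold nm
          ring
        have h7 := hC.neg
        nlinarith [sq_nonneg (2 * c.re + B * c.im), sq_nonneg c.im]
      have h5 : ((nI (sp c) : ℕ) : ℤ) = nm c := by
        rw [Pool.Agent.MUX.nI_sp hC hc0]
        exact Int.natAbs_of_nonneg hnn
      obtain ⟨k, hk⟩ : ∃ k : ℕ, nI (sp c) = 1 + 3 ^ (n + 1) * k := by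
        obtain ⟨k, hk⟩ := h4
        have h6 : ((nI (sp c) : ℕ) : ℤ) = 1 + ((3 ^ (n + 1) : ℕ) : ℤ) * k := by
          rw [h5, ← hk]
          ring
        have h7 : 0 ≤ k := by
          by_contra h8
          have h9 : k ≤ -1 := by omega
          have h10 : (3 : ℤ) ≤ ((3 ^ (n + 1) : ℕ) : ℤ) := by
            have : 3 ^ 1 ≤ 3 ^ (n + 1) := Nat.pow_le_pow_right (by norm_num) (by omega)
            exact_mod_cast this
          have h11 : (0 : ℤ) ≤ ((nI (sp c) : ℕ) : ℤ) := by positivity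
          nlinarith
        obtain ⟨k', rfl⟩ := Int.eq_ofNat_of_zero_le h7
        exact ⟨k', by exact_mod_cast h6⟩
      rw [hk, pow_add, pow_one, pow_mul, hz, one_pow, mul_one])
    exact key
  have hzt : zt (3 ^ (n + 1)) ^ 3 ^ (n + 1) = 1 := by
    unfold Pool.Agent.MU3I.zt
    exact (Complex.isPrimitiveRoot_exp _ (pow_ne_zero _ (by norm_num))).pow_eq_one
  have hq : q0 3 * 3 ^ n = 3 ^ (n + 1) := by
    rw [hq3]
    ring
  have hBdef : Bn = IntermediateField.adjoin ℚ {zt (3 ^ (n + 1)) + (zt (3 ^ (n + 1)))⁻¹} := by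
    have h2 := h1 3 n (Or.inr rfl) Bn hlay
    rwa [hq] at h2
  have hBn : Bn ≤ IntermediateField.restrictScalars ℚ (RFE (lvR P f n)) := by
    rw [hBdef, IntermediateField.adjoin_le_iff]
    intro x hx
    rw [Set.mem_singleton_iff] at hx
    rw [hx]
    have h3 := hz _ hzt
    exact add_mem h3 (inv_mem h3)
  intro y hy
  exact (sup_le hK' hBn) hy

end

end Pool.Agent.NSIR
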