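import Pool.Agent.ME.N.IAll
import Pool.Agent.ME.X.IAll
import Pool.Agent.ME.N.IR_I31
import Pool.Agent.ME.N.IR_SUB
import Pool.Agent.ME.N.IR_TE6
import Pool.Agent.NS.IAll
/-!
# MUX-NS, block IR (`D = -3`), all statements of `ME/StIR.lean` (helper6). The only input is `Sq_HFIN_E` (block H)
-/

set_option autoImplicit false

namespace Pool.Agent.NSIR

open Pool.Agent.ME Pool.Agent.NSI

open Pool.Agent.MUXF Pool.Agent.MUXU Pool.Agent.MUXY Pool.Agent.MUXK Pool.Agent.MUXI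

theorem r_TE6_E : Sp_TE6_E := tp_TE6_E
theorem r_EPR_E : Sp_EPR_E := tp_EPR_E
theorem r_SUB_E : Sp_SUB_E := tp_SUB_E i_LAY

theorem r_I31_E (hH : Pool.Agent.NSRD.Sq_HFIN_E) : Sp_I31_E :=
  tp_I31_E Pool.Agent.MUXJ.j_RES i_CHI n_FOU Pool.Agent.MU3I.t_ITG r_TE6_E r_EPR_E n_E0_E i_ARF_E
    i_XXF_E n_SUB_E i_GAM n_XMX_E i_BIJ n_TH_E i_GEN hH k_GALX

/-- the result of block IR -/
theorem r_INP_E (hH : Pool.Agent.NSRD.Sq_HFIN_E) : Sp_INP_E := tp_INP_E (r_I31_E hH) n_LEM1 n_NRX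

end Pool.Agent.NSIR
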