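import Pool.Agent.ME.DefsE2
import Pool.Agent.NS.StIN
import Pool.Agent.ME.X.StIX
import Pool.Agent.ME.X.StZX
/-!
# MUX-NS, block IN (helper36): from the results of blocks E, H to the input (I3) of block K

`PAPER_NS.md`, section 1. Every statement is a `def Sn_X : Prop`; a module proves `theorem tn_X (h : ..) ... : Sn_X`
in the file `Pool/Agent/NS/I_X.lean`, namespace `Pool.Agent.NSI`; the hypotheses are the statements named under USES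
(fewer is fine). The statements are general where this costs nothing: `SetL p A B f` (`p = 2` or `3`, no condition on the decomposition
of `p`), so they contain the statements of `Pool/Agent/MUX/StIX.lean` (`Si_X`, proved in `Pool/Agent/MUX/I_X.lean`) and can be used in the
ramified case. The modules IAF, IAG, RPR, HIT, ARF, XXF, LAY, GAM, BIJ, PTP, CHI, GEN of `StIX.lean` are used as they are.
-/

set_option autoImplicit false

namespace Pool.Agent.NSI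

open _root_.MU3 Pool.Agent.MU3 Pool.Agent.MU3A Pool.Agent.MU3B Pool.Agent.RI Pool.Agent.RID
  Pool.Agent.MUX Pool.Agent.ME Pool.Agent.MUXK Pool.Agent.MUXI Pool.Agent.NS
open Pool.Agent.MU3I (w3 zt)

noncomputable section

/-! ## Definitions -/

lemma setL_N_E {A B : ℤ} {V : ValuationSubring ℂ} {f : ℕ} (h : SetE4 A B V f) : SetL 3 A B f :=
  ⟨h.case.toCQ, Or.inr rfl, h.f0, h.fp⟩

/-- the weights `kk_i = kp_i c_i / mu_i`, times `w3 (N b_i)` if `s = -1`; `c : ι → ℂ` (`kkX` of `StIX.lean` has `c : ι → ℤ`) -/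
def kkC_E {A B : ℤ} {n₀ : ℕ} {ι : Type} (R : RepsE A B n₀ ι) (kp c : ι → ℂ) (s : ℤ) (i : ι) : ℂ :=
  kp i * c i / muXE R i * (if s = 1 then 1 else (w3 (nI (R.b i)) : ℂ))

/-- the input from block E for one field `D` -/
structure EInpN_E {A B : ℤ} (V : ValuationSubring ℂ) (f : ℕ) {ι : Type}
    (R : RepsE A B (3 * f) ι) (u : ℂ) (n : ℕ) {D : IntermediateField ℚ ℂ} (h : kk A B ≤ D)
    (C : (letI := algC h; D ≃ₐ[kk A B] D) → ℂ) : Prop where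
  ne : C (letI := algC h; 1) ≠ 0
  conj : letI := algC h
    ∀ τ : D ≃ₐ[kk A B] D, ∃ y : D, (y : ℂ) = C 1 ∧ ((τ y : D) : ℂ) = C τ
  ew : letI := algC h
    ∀ w : OO A B → ℂ, IsTei V w → ∀ g : (D ≃ₐ[kk A B] D) → ℤ,
      (∃ y ∈ D, y ^ 3 = ∏ᶠ τ : D ≃ₐ[kk A B] D, C τ ^ g τ) → ∀ τ' : D ≃ₐ[kk A B] D,
        V.valuation ((∑ᶠ τ : D ≃ₐ[kk A B] D, (g τ : ℂ) *
          TTNE R w (lvX 3 f n) (aX 3 f) h (τ * τ')) / u) ≤ V.valuation (3 : ℂ)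

/-! ## Characters -/

/-- (EPS) the sign function, the odd character, the sign `s` and the type `i`.

USES Sx_ALG (and what you like of `StIX.lean`). PROOF. `lvX 3 f 0 = f * 3 * 3^0`. Let `k*` be the set of the `x ≡ 1` modulo `f`, `x ∉ (3)`. As `3 ∤ f`, every class of `O/3` contains elements `≡ 1` modulo `f` (CRT with integers `a f + b 3 = 1`), and for `x, x' ∈ k*` with
`x ≡ x'` modulo `3` one has `x ≡ x'` modulo `3 f`. So `e0` on `k*` is a character of `(O/3)^*`, the multiplicative group of a field with nine elements (`3` is prime in `O`: `CaseE4.three`, `O/3 = F_3[w]`, the discriminant is not a square modulo `3`), cyclic of order 8.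
`w` is injective on it (`w x = 1` gives `v(1 - emb x) ≤ v(3) < 1`, so `1 - x ∈ (3)` by `OverI`), so every character of it is a power `w^j`, `0 ≤ j ≤ 7` (e.g. `y` a generator; `e0(y)^8 = 1`, and `w y` is a primitive 8th root of unity, so `e0 y = (w y)^j`). `w3 (nm x) = (w x)^4` for `x ∉ (3)`: `x̄ ≡ x^3` modulo `3`
(Frobenius: `w̄ = B - w`; or check the nine classes), so `nm x = x x̄ ≡ x^4` modulo `3`, both sides are `± 1` and congruent modulo `3` (`IsTei.cong`), and `v(2) = 1`. `s = 1` if `j + 1 ∈ {4, .., 7}`, `i = j + 1`; otherwise `s = -1`, `i = j + 5` (`j = 0, 1, 2`) or `i = 4` (`j = 7`).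
`e x = e0 x * w x * (if s = 1 then 1 else w3 (nm x))`: `e (-1) = w (-1) = -1` (`w (-1)^2 = 1`, `w (-1) ≡ -1` modulo 3). `supp`: `w x ≠ 0` for `x ∉ (3)` (`pow`), and `x` is prime to `3 f` iff ...; the support of `e0` is given. Last formula: `w3 (nm x)^2 = 1`. -/
def Sn_EPS_E : Prop :=
  ∀ (A B : ℤ) (V : ValuationSubring ℂ) (f : ℕ) (_ : SetE4 A B V f) (w : OO A B → ℂ)
    (_ : IsTei V w) (e0 : OO A B → ℂ) (r : ℕ)
    (_ : e0 1 = 1) (_ : e0 (-1) = 1) (_ : ∀ x y, e0 (x * y) = e0 x * e0 y)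
    (_ : ∀ x y, x - y ∈ idl (A := A) (B := B) (lvX 3 f 0) → e0 x = e0 y)
    (_ : ∀ x, e0 x ≠ 0 ↔ IsCoprime x ((lvX 3 f 0 : ℕ) : OO A B))
    (_ : ∀ x, e0 x ≠ 0 → e0 x ^ r = 1) (_ : ∀ z, IsUnit z → e0 z = 1),
    ∃ (e : OO A B → ℂ) (s : ℤ) (i : ℕ), IsEIE (idl (A := A) (B := B) (3 * f)) e ∧
      (s = 1 ∨ s = -1) ∧ 4 ≤ i ∧ i ≤ 7 ∧
      (∀ x, x - 1 ∈ idl (A := A) (B := B) f → x ∉ idl (A := A) (B := B) 3 → e x = w x ^ i) ∧
      (∀ x, e x ≠ 0 → e x ^ (8 * r) = 1) ∧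
      ∀ x, IsCoprime x ((lvX 3 f 0 : ℕ) : OO A B) →
        e0 x * w x = e x * (if s = 1 then 1 else (w3 (nm x) : ℂ))

/-- (TEI) existence of the Teichmueller character.

PROOF. `O/3` is a field with nine elements (see EPS), `(O/3)^*` is cyclic of order 8, generated by the class of `y`. The polynomial `X^8 - 1` has in `ℂ` the eight roots `ζ^j`, `ζ = exp(2 π i/8)`; `∏_j (emb y - ζ^j) = emb y ^ 8 - 1 = emb (y^8 - 1) ∈ 3 emb O`, so `v(emb y - ζ^j) < 1` for some `j`. Not enough: we need `v ≤ v(3)`: the differences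
`ζ^j - ζ^l`, `j ≠ l`, are units at `V` (their product, `∏_(j ≠ l) (1 - ζ^..)`, divides a power of 2, and `v(2) = 1` since `v(3) < 1`), so exactly one factor is `< 1`, the others are units (`v = 1`), and `v(emb y - ζ^j) = v(emb y^8 - 1) ≤ v(3)`. Put `ω = ζ^j` and `w x = ω^k` if `x ≡ y^k` modulo `3`, `0` if `x ∈ (3)`. `ω^8 = 1`: well defined,
multiplicative. `cong`: `emb x - ω^k = emb(x - y^k) + (emb y ^k - ω^k)`, and `0` for `x ∈ (3)`: `v(emb x) ≤ v(3)` as `x = 3 x'`, `emb x' ∈ V` (`emb O ⊆ V`: `OverI` gives it: if `emb x' ∉ V` then `emb x'` is ... use that `emb x'` is integral over `ℤ`, or `x'` satisfies `x'^2 = t x' - n`). -/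
def Sn_TEI_E : Prop :=
  ∀ (A B : ℤ) (V : ValuationSubring ℂ), CaseE4 A B → OverI V (idl (A := A) (B := B) 3) →
    ∃ w : OO A B → ℂ, IsTei V w

/-! ## Statements of `StIX.lean` without a condition on `p` -/

/-- (E0) the characters `e0` and `kp` attached to a character of `Gal(K/k)`, `K ≤ RFE (f q0)`.

USES Si_ARF_E, Sx_NIM. `Pool/Agent/MUX/I_E0.lean` with `SetL` (the same proof; `Si_E0` follows with `setL_P`). -/
def Sn_E0_E : Prop :=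
  ∀ (p : ℕ) (A B : ℤ) (f : ℕ),
    SetL p A B f → CaseE A B → 2 ∣ lvX p f 0 → TorXE A B → ∀ (ι : Type) (R : RepsE A B (p * f) ι)
    (K : IntermediateField ℚ ℂ) (hK : kk A B ≤ K),
    (∀ y ∈ K, y ∈ RFE (idl (A := A) (B := B) (lvX p f 0))) → letI := algC hK
    ∀ (_ : IsGalois (kk A B) K) (X : (K ≃ₐ[kk A B] K) →* ℂˣ) (r : ℕ) (_ : ∀ τ, X τ ^ r = 1),
    ∃ (e0 : OO A B → ℂ) (kp : ι → ℂ), e0 1 = 1 ∧ e0 (-1) = 1 ∧ (∀ x y, e0 (x * y) = e0 x * e0 y) ∧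
      (∀ x y, x - y ∈ idl (A := A) (B := B) (lvX p f 0) → e0 x = e0 y) ∧
      (∀ x, e0 x ≠ 0 ↔ IsCoprime x ((lvX p f 0 : ℕ) : OO A B)) ∧
      (∀ x, e0 x ≠ 0 → e0 x ^ r = 1) ∧ (∀ z, IsUnit z → e0 z = 1) ∧ (∀ i, kp i ^ r = 1) ∧
      ∀ (τ : K ≃ₐ[kk A B] K) (i : ι) (x : OO A B), IsCoprime x ((lvX p f 0 : ℕ) : OO A B) →
        AR_E hK (idl (lvX p f 0)) τ (sp x * cjI (R.b i)) → (((X τ)⁻¹ : ℂˣ) : ℂ) = kp i * e0 x

/-- (SUB) `K B_n ≤ RFE (lvX p f n)`.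

USES Si_LAY, Si_IAF_E. `Pool/Agent/MUX/I_SUB.lean` with `SetL`. -/
def Sn_SUB_E : Prop :=
  ∀ (p : ℕ) (A B : ℤ) (f : ℕ), SetL p A B f → TorXE A B →
    (∃ (b : Ideal (OO A B)) (L : PeriodPair) (om : ℂ), IsNE b L om) →
    ∀ (K : IntermediateField ℚ ℂ), (∀ y ∈ K, y ∈ RFE (idl (A := A) (B := B) (lvX p f 0))) →
    ∀ (n : ℕ) (Bn : IntermediateField ℚ ℂ), IsLayer p n Bn →
    ∀ y ∈ K ⊔ Bn, y ∈ RFE (idl (A := A) (B := B) (lvX p f n))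

/-- (XMX) the sets `XXE` satisfy `XM_E`.

USES Si_XXF_E, Si_ARF_E, Si_LAY, Sx_ALG, Sx_NIM. The proof of `Si_XMX` with `SetL`. -/
def Sn_XMX_E : Prop :=
  ∀ (p : ℕ) (A B : ℤ) (f : ℕ),
    SetL p A B f → CaseE A B → 2 ∣ lvX p f 0 → TorXE A B → ∀ (ι : Type) (R : RepsE A B (p * f) ι)
    (K Bn : IntermediateField ℚ ℂ) (n : ℕ) (h : kk A B ≤ K ⊔ Bn), IsLayer p n Bn →
    (∀ y ∈ K ⊔ Bn, y ∈ RFE (idl (A := A) (B := B) (lvX p f n))) → letI := algC h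
    ∀ (_ : IsGalois (kk A B) ↥(K ⊔ Bn)) (γ : ↥(K ⊔ Bn) ≃ₐ[kk A B] ↥(K ⊔ Bn)),
    (∀ x : ↥(K ⊔ Bn), (x : ℂ) = zt (q0 p * p ^ n) + (zt (q0 p * p ^ n))⁻¹ →
        ((γ x : ↥(K ⊔ Bn)) : ℂ) =
          zt (q0 p * p ^ n) ^ (1 + q0 p) + (zt (q0 p * p ^ n) ^ (1 + q0 p))⁻¹) →
    XM_E R p f n γ (NC h Bn) (fun τ => XXE R (lvX p f n) h τ)

/-- (TSH) the sums of the logarithmic derivatives; `e` modulo any ideal `g ∣ f q0`.

USES Si_PTP_E, Sx_ALG. `Pool/Agent/MUX/I_TSH.lean` with `SetL` and `idl f * cjI P` replaced by `g`; there the only facts used are `idl (lvX p f n) ≤ g`, which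
follows from the hypothesis on `g`, and `aX p f - 1 = 2 q0 f ∈ g`, the same. -/
def Sn_TSH_E : Prop :=
  ∀ (p : ℕ) (A B : ℤ) (f : ℕ),
    SetL p A B f → ∀ g : Ideal (OO A B), idl (A := A) (B := B) (lvX p f 0) ≤ g →
    ∀ (ι : Type) (R : RepsE A B (p * f) ι) (n : ℕ) (e : OO A B → ℂ),
    IsEI g e → ∀ (i : ι) (t : ℤ),
    muXE R i * sumMod ((lvX p f n : ℕ) : OO A B) (fun x =>
      if ((q0 p * p ^ n : ℕ) : ℤ) ∣ nm x * nI (R.b i) - t then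
        e x * dlX (R.L i) (aX p f) (ptE R (lvX p f n) i x) else 0) =
      (aX p f : ℂ) * SnXE R (lvX p f n) (q0 p * p ^ n) e i ((aX p f : ℤ) ^ 2 * t) -
        (aX p f : ℂ) ^ 2 * SnXE R (lvX p f n) (q0 p * p ^ n) e i t

/-- (TH) the sums `That_j`; `e` modulo any ideal `g ∣ f q0`, weights `w`, `c` with complex values.

USES TSH, Si_PTP_E, Sx_ALG, Sx_NIM. The proof of `Si_TH` (`StIX.lean`); `Si_TH` is the case `g = idl f * cjI P`. In that proof only the following is used on `w`: it is periodic modulo the level; on `e`: `g ≤ idl f` (so `e x ≠ 0` implies that `x` is prime to `f`). -/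
def Sn_TH_E : Prop :=
  ∀ (p : ℕ) (A B : ℤ) (f : ℕ),
    SetL p A B f → CaseE A B → 2 ∣ lvX p f 0 → ∀ g : Ideal (OO A B), idl (A := A) (B := B) (lvX p f 0) ≤ g → g ≤ idl f →
    ∀ (ι : Type) [Fintype ι] (R : RepsE A B (p * f) ι) (n : ℕ) (G : Type)
    [Group G] [Finite G] (γ : G) (Δ : Subgroup G) [Fintype Δ]
    (X : G → Set (ι × (OO A B ⧸ idl (A := A) (B := B) (lvX p f n)))), XM_E R p f n γ Δ X →
    ∀ (χ : Δ →* ℂˣ) (e0 : OO A B → ℂ) (kp c : ι → ℂ) (w : OO A B → ℂ) (e : OO A B → ℂ)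
    (s : ℤ),
    (∀ x y, x - y ∈ idl (A := A) (B := B) (lvX p f n) → e0 x = e0 y) →
    (∀ x y, x - y ∈ idl (A := A) (B := B) (lvX p f n) → w x = w y) →
    IsEIE g e → s = 1 ∨ s = -1 → (p = 2 → s = 1) →
    (∀ x, IsCoprime x ((lvX p f 0 : ℕ) : OO A B) →
        e0 x * w x = e x * (if s = 1 then 1 else (w3 (nm x) : ℂ))) →
    (∀ (δ : Δ) (j : ℕ), ∀ q ∈ X (γ ^ j * (δ : G)),
      (((χ δ)⁻¹ : ℂˣ) : ℂ) = kp q.1 * e0 (Quotient.out q.2)) →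
    ∀ j : ℕ,
    (rE A B : ℂ) * ∑ δ : Δ, (((χ δ)⁻¹ : ℂˣ) : ℂ) * ∑ᶠ q ∈ X (γ ^ j * (δ : G)),
        w (Quotient.out q.2) *
        c q.1 * dlX (R.L q.1) (aX p f) (ptE R (lvX p f n) q.1 (Quotient.out q.2)) =
      STXE R (lvX p f n) (q0 p * p ^ n) (aX p f) e (kkC_E R kp c s) ((1 + (q0 p : ℤ)) ^ j) +
        s * STXE R (lvX p f n) (q0 p * p ^ n) (aX p f) e (kkC_E R kp c s) (-(1 + (q0 p : ℤ)) ^ j)

/-! ## One level is enough -/

/-! ## The result -/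

/-- (I3) one level, `T`. Module of helper36.

USES Sj_RES, Si_CHI, FOU, St_ITG, EPS, TEI, E0, Si_ARF_E, Si_XXF_E, SUB, Si_GAM, XMX, Si_BIJ, TH, Si_GEN, `Sn_HFIN_E`, S_GALX. -/
def Sn_I31_E : Prop :=
  ∀ (A B : ℤ) (V : ValuationSubring ℂ) (f : ℕ), SetE4 A B V f → TorXE A B →
    ∀ (ι : Type) [Fintype ι] (R : RepsE A B (3 * f) ι) (u el lam : ℂ),
    GoodN V (R.L R.i0) u el lam →
    ∀ (K : IntermediateField ℚ ℂ) (Bn : ℕ → IntermediateField ℚ ℂ)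
    [FiniteDimensional ℚ K] [∀ n, FiniteDimensional ℚ ↥(K ⊔ Bn n)]
    (hB : BasX 3 (kk A B) K Bn)
    (_ : ¬ 3 ∣ Module.finrank (kk A B) (IntermediateField.extendScalars hB.hk))
    (_ : ∀ y ∈ K, y ∈ RFE (idl (A := A) (B := B) (lvX 3 f 0)))
    (hk : ∀ n, kk A B ≤ K ⊔ Bn n) (hkK : kk A B ≤ K)
    (C : ∀ n, (letI := algC (hk n); ↥(K ⊔ Bn n) ≃ₐ[kk A B] ↥(K ⊔ Bn n)) → ℂ)
    (_ : ∀ n, 1 ≤ n → EInpN_E V f R u n (hk n) (C n)) (c₀ : ℕ → ℂ)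
    (mem : ∀ n, c₀ n ∈ K ⊔ Bn n) (_ : ∀ n, 1 ≤ n → c₀ n = C n (letI := algC (hk n); 1))
    (χ : (letI := algC hkK; (↥K ≃ₐ[kk A B] ↥K) →* (IsLocalRing.ResidueField V)ˣ)) (n₀ : ℕ),
    ∃ n, n₀ ≤ n ∧ I3At (IsLocalRing.ResidueField V) 3 (kk A B) K Bn hkK χ 1 n (hk n) (c₀ n) (mem n)

/-- THE RESULT of block IN: the inputs of block K. Module of helper36.

USES I31, LEM1, NRX. -/
def Sn_INP_E : Prop :=
  ∀ (A B : ℤ) (V : ValuationSubring ℂ) (f : ℕ), SetE4 A B V f → TorXE A B →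
    ∀ (ι : Type) [Fintype ι] (R : RepsE A B (3 * f) ι) (u el lam : ℂ),
    GoodN V (R.L R.i0) u el lam →
    ∀ (K₀ K : IntermediateField ℚ ℂ) (Bn : ℕ → IntermediateField ℚ ℂ)
    [FiniteDimensional ℚ (kk A B)] [FiniteDimensional ℚ K] [∀ n, FiniteDimensional ℚ ↥(K ⊔ Bn n)]
    (_ : SetX 3 (kk A B) K₀ K Bn)
    (_ : ∀ y ∈ K₀, y ∈ RFE (idl (A := A) (B := B) (lvX 3 f 0)))
    (hk : ∀ n, kk A B ≤ K ⊔ Bn n) (hk₀ : ∀ n, kk A B ≤ K₀ ⊔ Bn n) (hkK : kk A B ≤ K₀)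
    (S : Finset ℕ) (c c₀ : ℕ → ℂ) (n₁ : ℕ)
    (_ : Pool.Agent.MUXZ.InpW 3 (kk A B) K₀ K Bn hk hk₀ S c c₀ n₁)
    (C : ∀ n, (letI := algC (hk₀ n); ↥(K₀ ⊔ Bn n) ≃ₐ[kk A B] ↥(K₀ ⊔ Bn n)) → ℂ)
    (_ : ∀ n, 1 ≤ n → EInpN_E V f R u n (hk₀ n) (C n))
    (_ : ∀ n, 1 ≤ n → c₀ n = C n (letI := algC (hk₀ n); 1)),
    InpX (IsLocalRing.ResidueField V) 3 (kk A B) K₀ K Bn hk hk₀ hkK S c c₀ n₁

end

end Pool.Agent.NSI
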