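import Pool.Agent.ME.DefsE2
import Pool.Agent.ME.Lib
import Pool.Agent.NS.I_E0
import Pool.Agent.ME.N.StIN
import Pool.Agent.ME.X.I_HIT
import Pool.Agent.MUX.I_E0
/-!
# MUX-NS, block IN, module E0: the characters `e0` and `kp`, for `SetL`
(`Pool/Agent/MUX/I_E0.lean` by helper42 is for `SetP`; its lemmas are used)
-/

set_option autoImplicit false

namespace Pool.Agent.NSI

open _root_.MU3 Pool.Agent.MU3 Pool.Agent.MU3A Pool.Agent.MU3B Pool.Agent.RI Pool.Agent.RID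
  Pool.Agent.MUX Pool.Agent.ME Pool.Agent.MUXK Pool.Agent.MUXI Pool.Agent.NS
open Pool.Agent.MU3I (w3 zt)

noncomputable section

open Pool.Agent.MUXI.E0

/-- the module E0 -/
theorem tn_E0_E (h1 : Pool.Agent.MUXI.Si_ARF_E) (h4 : Pool.Agent.MUXF.Sx_NIM) : Sn_E0_E := by
  intro p A B f S hE h2l T ι R K hK hKm hG X r hX
  have hp : p = 3 ∨ p = 2 := S.hp.symm
  have hlv : 3 ≤ lvX p f 0 := by
    have hf : 1 ≤ f := Nat.one_le_iff_ne_zero.2 S.f0
    unfold lvX q0
    rcases hp with rfl | rfl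
    · simp; omega
    · simp; omega
  have hm : (idl (lvX p f 0) : Ideal (OO A B)) ≠ ⊥ := by
    rw [Ne, Ideal.span_singleton_eq_bot]
    exact nat_ne (by omega)
  have hm1 : (idl (lvX p f 0) : Ideal (OO A B)) ≠ ⊤ := by
    rw [Ne, Ideal.span_singleton_eq_top]
    intro hu
    obtain ⟨y, hy⟩ := hu.exists_right_inv
    have h := congrArg QuadraticAlgebra.re hy
    rw [QuadraticAlgebra.re_mul] at h
    simp only [QuadraticAlgebra.re_natCast, QuadraticAlgebra.im_natCast, QuadraticAlgebra.re_one,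
      mul_zero, zero_mul, add_zero] at h
    have h' : ((lvX p f 0 : ℕ) : ℤ) ∣ 1 := ⟨_, h.symm⟩
    have h'' := Int.le_of_dvd one_pos h'
    omega
  have hbot : ∀ a : Ideal (OO A B), IsCoprime a (idl (lvX p f 0)) → a ≠ ⊥ := by
    rintro a ha rfl
    apply hm1
    rw [← Ideal.isCoprime_iff_sup_eq.1 ha, bot_sup_eq]
  obtain ⟨a1, a2, -, a4, a5, -, -⟩ := h1 A B S.cq T ⟨_, _, _, R.nl R.i0⟩
    (idl (lvX p f 0)) hm (MUXI.Hit.idl_le h2l) K hK hKm hG
  let _ : Algebra (kk A B) K := algC hK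
  obtain ⟨ψ, s1, s2, s3, s4, s5, s6⟩ := psi (idl (lvX p f 0))
    (fun τ a => AR_E hK (idl (lvX p f 0)) τ a) X r hX a1
    (fun a ha => a2 a (hbot a ha) ha)
    (fun τ a h => by obtain ⟨σ, h, -⟩ := h; exact h.cop)
    a4 a5
  have hcop : ∀ x : OO A B, IsCoprime (sp x) (idl (lvX p f 0)) ↔
      IsCoprime x ((lvX p f 0 : ℕ) : OO A B) := fun x => Ideal.isCoprime_span_singleton_iff _ _
  refine ⟨fun x => ψ (sp x), fun i => ψ (cjI (R.b i)), ?_, ?_, ?_, ?_, ?_, ?_, ?_, ?_, ?_⟩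
  · show ψ (sp 1) = 1
    rw [sp, Ideal.span_singleton_one, s3]
  · show ψ (sp (-1)) = 1
    rw [sp, Ideal.span_singleton_neg, Ideal.span_singleton_one, s3]
  · intro x y
    show ψ (sp (x * y)) = ψ (sp x) * ψ (sp y)
    rw [← s2, sp, sp, sp, Ideal.span_singleton_mul_span_singleton]
  · intro x y hxy
    show ψ (sp x) = ψ (sp y)
    by_cases hx : IsCoprime (sp x) (idl (lvX p f 0))
    · have hy := cop_sub hxy hx
      have hx0 : x ≠ 0 := by
        rintro rfl
        exact hbot _ hx (by rw [sp, Ideal.span_singleton_eq_bot])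
      have hy0 : y ≠ 0 := by
        rintro rfl
        exact hbot _ hy (by rw [sp, Ideal.span_singleton_eq_bot])
      refine s6 _ _ ⟨y, x, hy0, hx0, hy, ?_, mul_comm _ _⟩ hx hy
      rw [← neg_sub]
      exact neg_mem hxy
    · have hy : ¬ IsCoprime (sp y) (idl (lvX p f 0)) := fun hy => hx (cop_sub (by
        rw [← neg_sub]
        exact neg_mem hxy) hy)
      rw [not_not.1 fun h => hx ((s4 _).1 h), not_not.1 fun h => hy ((s4 _).1 h)]
  · intro x
    exact (s4 _).trans (hcop x)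
  · intro x hx
    exact s5 _ hx
  · intro z hz
    show ψ (sp z) = 1
    rw [sp, Ideal.span_singleton_eq_top.2 hz, s3]
  · intro i
    apply s5
    rw [s4]
    obtain ⟨-, -, n3, -⟩ := h4 A B (Pool.Agent.MUXY.cqF S.cq)
    obtain ⟨-, -, -, n4⟩ := n3 (R.b i) (R.nl i).b_ne
    have h5 : ((nI (R.b i) : ℕ) : OO A B) ∈ cjI (R.b i) := by
      show (starRingEnd (OO A B)) ((nI (R.b i) : ℕ) : OO A B) ∈ R.b i
      rw [map_natCast]
      exact n4
    obtain ⟨u, v, huv⟩ := cop_nat (A := A) (B := B) (lv_cop (R.cop i))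
    exact Ideal.isCoprime_iff_exists.2 ⟨u * _, Ideal.mul_mem_left _ _ h5, v * _,
      Ideal.mul_mem_left _ _ (Ideal.mem_span_singleton_self _), huv⟩
  · intro τ i x hx hA
    show (((X τ)⁻¹ : ℂˣ) : ℂ) = ψ (cjI (R.b i)) * ψ (sp x)
    rw [← s1 τ _ hA, s2, mul_comm]

end

end Pool.Agent.NSI
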