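import Pool.Agent.ME.DefsE2
import Pool.Agent.ME.Lib
import Pool.Agent.NS.I_EPS
import Pool.Agent.ME.N.StIN
import Pool.Agent.MUX.XLib
/-!
# MUX-NS, block IN: module EPS, the odd character, the sign `s` and the type `i`

`(O/3)^*` is cyclic of order 8, generated by the class of `gy = 1 + δ`, `δ = 2 w - B`, `δ² = B² + 4 A ≡ -1` modulo `3`.
`Y ≡ gy` modulo `3`, `Y ≡ 1` modulo `f`: `w Y` is a primitive 8th root of unity and `e0 Y = (w Y)^j`, so `e0 x = (w x)^j` for all
`x ≡ 1` modulo `f`, `x` prime to `3`. Moreover `w3 (nm x) = (w x)^4` for `x` prime to `3`.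
-/

set_option autoImplicit false

namespace Pool.Agent.NSI

open _root_.MU3 Pool.Agent.MU3 Pool.Agent.MU3A Pool.Agent.MU3B Pool.Agent.RI Pool.Agent.RID
  Pool.Agent.MUX Pool.Agent.ME Pool.Agent.MUXK Pool.Agent.MUXI Pool.Agent.NS
open Pool.Agent.MU3I (w3 zt)

noncomputable section

namespace EPS

variable {A B : ℤ}

end EPS

open EPS

theorem tn_EPS_E : Sn_EPS_E := by
  intro A B V f hS w hw e0 r h1 hm1 hmul hper hsupp hpow hun
  have hc : CQ A B := hS.case.toCQ
  obtain ⟨t, ht⟩ : ∃ t : ℤ, B ^ 2 + 4 * A + 1 = 3 * t := ⟨-1, by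
    rw [hS.hB, hS.case.hA]
    norm_num⟩
  have lv : lvX 3 f 0 = 3 * f := by
    simp [lvX, q0, mul_comm]
  rw [lv] at hper hsupp
  rw [lv]
  -- valuations
  have v3 : V.valuation (3 : ℂ) < 1 := by
    have h1 : emb ((3 : ℕ) : OO A B) ∈ V.nonunits := (hS.hV _).2 (Ideal.mem_span_singleton_self _)
    rw [MUX.emb_natCast hc] at h1
    exact_mod_cast V.mem_nonunits_iff.1 h1
  -- `w (-1) = -1`
  have wm1 : w (-1) = -1 := by
    have h2 : w (-1) * w (-1) = 1 := by
      rw [← hw.mul, neg_mul_neg, one_mul, hw.one]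
    rcases mul_self_eq_one_iff.1 h2 with h | h
    · exfalso
      have h4 := hw.cong (-1)
      rw [h, MUX.emb_neg hc, MUX.emb_one hc] at h4
      have e : (1 : ℂ) - -1 = 2 := by norm_num
      rw [e] at h4
      have h5 : V.valuation (1 : ℂ) < 1 := by
        have e1 : (1 : ℂ) = 3 - 2 := by norm_num
        rw [e1]
        exact (Valuation.map_sub _ _ _).trans_lt (max_lt v3 (h4.trans_lt v3))
      rw [map_one] at h5
      exact lt_irrefl _ h5
    · exact h
  -- the units
  have wunit : ∀ z : OO A B, IsUnit z → w z = emb z := by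
    have hsq : ∀ z : OO A B, z * z = -1 → w z = emb z := by
      intro z hz
      have h2 : w z * w z = -1 := by rw [← hw.mul, hz, wm1]
      have h3 : emb z * emb z = -1 := by
        rw [← MUX.emb_mul hc, hz, MUX.emb_neg hc, MUX.emb_one hc]
      have h4 : (w z - emb z) * (w z + emb z) = 0 := by linear_combination h2 - h3
      rcases mul_eq_zero.1 h4 with h5 | h5
      · exact sub_eq_zero.1 h5
      · exfalso
        have h6 := hw.cong z
        have e : w z - emb z = -(2 * emb z) := by linear_combination h5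
        rw [e, Valuation.map_neg, map_mul] at h6
        have h7 : V.valuation (emb z) = 1 := by
          have h8 : V.valuation (emb z) * V.valuation (emb z) = 1 := by
            rw [← map_mul, h3, Valuation.map_neg, map_one]
          rw [← pow_two] at h8
          rcases pow_eq_one_iff.1 h8 with h9 | h9
          · exact h9
          · omega
        rw [h7, mul_one] at h6
        have h5 : V.valuation (1 : ℂ) < 1 := by
          have e1 : (1 : ℂ) = 3 - 2 := by norm_num
          rw [e1]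
          exact (Valuation.map_sub _ _ _).trans_lt (max_lt v3 (h6.trans_lt v3))
        rw [map_one] at h5
        exact lt_irrefl _ h5
    intro z hz
    rcases unit_list hS.case hz with rfl | rfl | rfl | rfl | ⟨hB, -⟩
    · rw [hw.one, MUX.emb_one hc]
    · rw [wm1, MUX.emb_neg hc, MUX.emb_one hc]
    · apply hsq
      ext <;> simp [hS.case.hA, hS.hB, QuadraticAlgebra.re_one, QuadraticAlgebra.im_one]
    · apply hsq
      ext <;> simp [hS.case.hA, hS.hB, QuadraticAlgebra.re_one, QuadraticAlgebra.im_one]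
    · rw [hS.hB] at hB
      norm_num at hB
  -- the lift `Y` of the generator
  have hcop : IsCoprime (f : ℤ) 3 := by
    have h2 : Nat.Coprime f 3 := ((Nat.Prime.coprime_iff_not_dvd Nat.prime_three).2 hS.fp).symm
    have h3 := Nat.isCoprime_iff_coprime.2 h2
    exact_mod_cast h3
  obtain ⟨a, b, hab⟩ := hcop
  have habO : (a : OO A B) * (f : OO A B) + (b : OO A B) * 3 = 1 := by
    have := congrArg (fun n : ℤ => (n : OO A B)) hab
    push_cast at this
    exact this
  have hcopO : IsCoprime ((3 : ℕ) : OO A B) ((f : ℕ) : OO A B) := by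
    refine ⟨b, a, ?_⟩
    push_cast
    linear_combination habO
  have mem3f : ∀ z : OO A B, z ∈ idl (A := A) (B := B) 3 → z ∈ idl (A := A) (B := B) f →
      z ∈ idl (A := A) (B := B) (3 * f) := by
    intro z hz3 hzf
    rw [mem_idl] at hz3 hzf ⊢
    have := hcopO.mul_dvd hz3 hzf
    push_cast at this ⊢
    exact this
  have le3 : ∀ z : OO A B, z ∈ idl (A := A) (B := B) (3 * f) → z ∈ idl (A := A) (B := B) 3 := by
    intro z hz
    rw [mem_idl] at hz ⊢
    refine dvd_trans ⟨(f : OO A B), ?_⟩ hz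
    push_cast
    ring
  obtain ⟨Y, hY3, hYf⟩ : ∃ Y : OO A B, Y - gy A B ∈ idl (A := A) (B := B) 3 ∧
      Y - 1 ∈ idl (A := A) (B := B) f := by
    refine ⟨1 + a * f * (gy A B - 1), ?_, ?_⟩
    · rw [mem_idl]
      refine ⟨-(gy A B - 1) * b, ?_⟩
      push_cast
      linear_combination (gy A B - 1) * habO
    · rw [mem_idl]
      refine ⟨a * (gy A B - 1), ?_⟩
      ring
  have hYk3 : ∀ k : ℕ, Y ^ k - gy A B ^ k ∈ idl (A := A) (B := B) 3 := fun k => by
    rw [mem_idl] at hY3 ⊢
    exact hY3.trans (sub_dvd_pow_sub_pow _ _ _)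
  have hYkf : ∀ k : ℕ, Y ^ k - 1 ∈ idl (A := A) (B := B) f := fun k => by
    rw [mem_idl] at hYf ⊢
    have h2 := sub_dvd_pow_sub_pow Y 1 k
    rw [one_pow] at h2
    exact hYf.trans h2
  have hY4 : Y ^ 4 - (-1) ∈ idl (A := A) (B := B) 3 := by
    have := Ideal.add_mem _ (hYk3 4) (gy4 ht)
    have e : Y ^ 4 - gy A B ^ 4 + (gy A B ^ 4 + 1) = Y ^ 4 - (-1) := by ring
    rwa [e] at this
  have hY8 : Y ^ 8 - 1 ∈ idl (A := A) (B := B) 3 := by
    have := Ideal.mul_mem_left (idl (A := A) (B := B) 3) (Y ^ 4 - 1) hY4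
    have e : (Y ^ 4 - 1) * (Y ^ 4 - (-1)) = Y ^ 8 - 1 := by ring
    rwa [e] at this
  -- `w Y` is a primitive 8th root of unity
  have wY4 : w Y ^ 4 = -1 := by
    rw [← mul_pow' hw.one hw.mul, hw.per _ _ hY4, wm1]
  have wY8 : w Y ^ 8 = 1 := by
    have e : w Y ^ 8 = (w Y ^ 4) ^ 2 := by ring
    rw [e, wY4]
    norm_num
  have hprim : IsPrimitiveRoot (w Y) 8 := by
    have h2 : orderOf (w Y) = 2 ^ (2 + 1) := by
      apply orderOf_eq_prime_pow
      · rw [show (2 : ℕ) ^ 2 = 4 by norm_num, wY4]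
        norm_num
      · rw [show (2 : ℕ) ^ (2 + 1) = 8 by norm_num, wY8]
    have h3 := IsPrimitiveRoot.orderOf (w Y)
    rw [h2] at h3
    exact_mod_cast h3
  have eY8 : e0 Y ^ 8 = 1 := by
    rw [← mul_pow' h1 hmul, hper _ 1 (mem3f _ hY8 (hYkf 8)), h1]
  obtain ⟨j, hj8, hj⟩ := hprim.eq_pow_of_pow_eq_one eY8
  -- `e0 = w ^ j` on the elements `≡ 1` modulo `f`
  have he0 : ∀ x, x - 1 ∈ idl (A := A) (B := B) f → x ∉ idl (A := A) (B := B) 3 →
      e0 x = w x ^ j := by
    intro x hxf hx3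
    obtain ⟨k, hk⟩ := rep ht hx3
    have h4 : x - Y ^ k ∈ idl (A := A) (B := B) 3 := by
      have := Ideal.sub_mem _ hk (hYk3 k)
      have e : x - gy A B ^ k - (Y ^ k - gy A B ^ k) = x - Y ^ k := by ring
      rwa [e] at this
    have h5 : x - Y ^ k ∈ idl (A := A) (B := B) f := by
      have := Ideal.sub_mem _ hxf (hYkf k)
      have e : x - 1 - (Y ^ k - 1) = x - Y ^ k := by ring
      rwa [e] at this
    rw [hper _ _ (mem3f _ h4 h5), hw.per _ _ h4, mul_pow' h1 hmul, mul_pow' hw.one hw.mul, ← hj,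
      ← pow_mul, ← pow_mul, mul_comm]
  -- `w3 (nm x) = w x ^ 4`
  have hw3 : ∀ x, x ∉ idl (A := A) (B := B) 3 → ((w3 (nm x) : ℤ) : ℂ) = w x ^ 4 := by
    intro x hx3
    obtain ⟨k, hk⟩ := rep ht hx3
    have h4 : x - Y ^ k ∈ idl (A := A) (B := B) 3 := by
      have := Ideal.sub_mem _ hk (hYk3 k)
      have e : x - gy A B ^ k - (Y ^ k - gy A B ^ k) = x - Y ^ k := by ring
      rwa [e] at this
    have h5 : w3 (nm x) = (-1) ^ k := by
      rw [w3_congr (nm_congr hk), nm_pow hc, w3_pow, nm_gy]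
      have h6 : w3 (1 - (B ^ 2 + 4 * A)) = -1 := by
        unfold w3
        have h7 : (1 - (B ^ 2 + 4 * A)) % 3 = 2 := by omega
        rw [h7]
        norm_num
      rw [h6]
    rw [h5, hw.per _ _ h4, mul_pow' hw.one hw.mul, ← pow_mul, mul_comm k 4, pow_mul, wY4]
    push_cast
    rfl
  -- norms
  have nm3 : ∀ x : OO A B, x ∉ idl (A := A) (B := B) 3 → ¬ (3 : ℤ) ∣ nm x := by
    intro x hx
    rw [← w3_ne]
    intro h
    have h4 := hw3 x hx
    rw [h] at h4
    have h5 := hw.pow x hx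
    have e : w x ^ 8 = (w x ^ 4) ^ 2 := by ring
    rw [e, ← h4] at h5
    norm_num at h5
  have wne : ∀ x, x ∉ idl (A := A) (B := B) 3 → w x ≠ 0 := by
    intro x hx h
    have h5 := hw.pow x hx
    rw [h] at h5
    norm_num at h5
  -- the general construction
  have main : ∀ (s : ℤ) (i : ℕ), (s = 1 ∨ s = -1) → 4 ≤ i → i ≤ 7 →
      (∀ x, x ∉ idl (A := A) (B := B) 3 →
        w x ^ j * w x * (if s = 1 then 1 else ((w3 (nm x) : ℤ) : ℂ)) = w x ^ i) →
      ∃ (e : OO A B → ℂ) (s : ℤ) (i : ℕ), IsEIE (idl (A := A) (B := B) (3 * f)) e ∧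
      (s = 1 ∨ s = -1) ∧ 4 ≤ i ∧ i ≤ 7 ∧
      (∀ x, x - 1 ∈ idl (A := A) (B := B) f → x ∉ idl (A := A) (B := B) 3 → e x = w x ^ i) ∧
      (∀ x, e x ≠ 0 → e x ^ (8 * r) = 1) ∧
      ∀ x, IsCoprime x ((3 * f : ℕ) : OO A B) →
        e0 x * w x = e x * (if s = 1 then 1 else (w3 (nm x) : ℂ)) := by
    intro s i hs h4i hi7 hwi
    have sq : ∀ x, x ∉ idl (A := A) (B := B) 3 →
        (if s = 1 then (1 : ℂ) else (w3 (nm x) : ℂ)) ^ 2 = 1 := by
      intro x hx
      split_ifs
      · norm_num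
      · exact_mod_cast w3_sq (nm3 x hx)
    refine ⟨fun x => e0 x * w x * (if s = 1 then 1 else ((w3 (nm x) : ℤ) : ℂ)), s, i, ?_, hs, h4i,
      hi7, ?_, ?_, ?_⟩
    · refine ⟨⟨?_, ?_, ?_, ?_, ?_⟩, ?_⟩
      · have e : w3 (nm (1 : OO A B)) = 1 := by
          rw [nm_one]
          rfl
        simp only [h1, hw.one, e]
        simp
      · intro x y
        simp only [hmul, hw.mul, nm_mul hc, w3_mul]
        split_ifs
        · ring
        · push_cast
          ring
      · intro x y hxy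
        rw [hper x y hxy, hw.per x y (le3 _ hxy), w3_congr (nm_congr (le3 _ hxy))]
      · intro x
        rw [Ideal.isCoprime_span_singleton_iff]
        constructor
        · intro h
          exact (hsupp x).1 (left_ne_zero_of_mul (left_ne_zero_of_mul h))
        · intro h
          have hx3 := notMem_of_cop (Dvd.intro _ rfl) h
          refine mul_ne_zero (mul_ne_zero ((hsupp x).2 h) (wne x hx3)) ?_
          intro h0
          have := sq x hx3
          rw [h0] at this
          norm_num at this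
      · have e : w3 (nm (-1 : OO A B)) = 1 := by
          rw [nm_neg_one]
          rfl
        simp only [hm1, wm1, e]
        simp
      · intro z hz
        have e : w3 (nm z) = 1 := by
          rw [(isUnit_nm hS.case z).1 hz]
          rfl
        simp only [hun z hz, wunit z hz, e]
        simp
    · intro x hxf hx3
      beta_reduce
      rw [he0 x hxf hx3, hwi x hx3]
    · intro x hx
      beta_reduce at hx ⊢
      have hcx := (hsupp x).1 (left_ne_zero_of_mul (left_ne_zero_of_mul hx))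
      have hx3 := notMem_of_cop (Dvd.intro _ rfl) hcx
      have e1 : e0 x ^ (8 * r) = 1 := by
        rw [mul_comm, pow_mul, hpow x ((hsupp x).2 hcx), one_pow]
      have e2 : w x ^ (8 * r) = 1 := by
        rw [pow_mul, hw.pow x hx3, one_pow]
      have e3 : (if s = 1 then (1 : ℂ) else (w3 (nm x) : ℂ)) ^ (8 * r) = 1 := by
        have e : 8 * r = 2 * (4 * r) := by ring
        rw [e, pow_mul, sq x hx3, one_pow]
      rw [mul_pow, mul_pow, e1, e2, e3]
      norm_num
    · intro x hx
      have hx3 := notMem_of_cop (Dvd.intro _ rfl) hx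
      have h2 := sq x hx3
      beta_reduce
      rw [mul_assoc, ← pow_two, h2, mul_one]
  have w8 : ∀ x, x ∉ idl (A := A) (B := B) 3 → w x ^ 8 = 1 := hw.pow
  by_cases c1 : 3 ≤ j ∧ j ≤ 6
  · refine main 1 (j + 1) (Or.inl rfl) (by omega) (by omega) ?_
    intro x _
    rw [if_pos rfl, mul_one, pow_succ]
  · by_cases c2 : j = 7
    · refine main (-1) 4 (Or.inr rfl) (by omega) (by omega) ?_
      intro x hx
      rw [if_neg (by norm_num), hw3 x hx, c2, ← pow_succ, w8 x hx, one_mul]
    · refine main (-1) (j + 5) (Or.inr rfl) (by omega) (by omega) ?_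
      intro x hx
      rw [if_neg (by norm_num), hw3 x hx]
      ring

end

end Pool.Agent.NSI
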