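import Pool.Agent.ME.DefsE2
import Pool.Agent.ME.Lib
import Pool.Agent.NS.I_INP
import Pool.Agent.ME.N.StIN
/-!
# MUX-NS, block IN, module INP (helper36): the inputs of block K
-/

set_option autoImplicit false

namespace Pool.Agent.NSI

open _root_.MU3 Pool.Agent.MU3 Pool.Agent.MU3A Pool.Agent.MU3B Pool.Agent.RI Pool.Agent.RID
  Pool.Agent.MUX Pool.Agent.ME Pool.Agent.MUXK Pool.Agent.MUXI Pool.Agent.NS

noncomputable section

namespace INP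

end INP

/-- (INP) the inputs of block K -/
theorem tn_INP_E (h1 : Sn_I31_E) (h2 : Sn_LEM1) (h3 : Sn_NRX) : Sn_INP_E := by
  intro A B V f hS hTor ι iι R u el lam hG K₀ K Bn ik iK iKB hX hKT hk hk₀ hkK S c c₀ n₁ hW C hE
    hc₀
  have iP : Fact (Nat.Prime 3) := ⟨Nat.prime_three⟩
  have iK₀ : FiniteDimensional ℚ K₀ := INP.fd hX.le
  have iKB₀ : ∀ n, FiniteDimensional ℚ ↥(K₀ ⊔ Bn n) := fun n =>
    INP.fd (E' := K ⊔ Bn n) (sup_le_sup_right hX.le _)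
  have hNr := h3 3 (kk A B) K₀ K Bn hX hk hk₀ S c c₀ n₁ hW
  have hI3 : ∀ (χ : (letI := algC hkK; (↥K₀ ≃ₐ[kk A B] ↥K₀) →*
      (IsLocalRing.ResidueField V)ˣ)) (N n₀ : ℕ), ∃ n, n₀ ≤ n ∧
      I3At (IsLocalRing.ResidueField V) 3 (kk A B) K₀ Bn hkK χ N n (hk₀ n) (c₀ n)
        (hW.mem₀ n) := by
    intro χ N n₀
    refine h2 (IsLocalRing.ResidueField V) 3 (kk A B) K₀ Bn hX.b0 hX.cop hX.om hk₀ hkK c₀ hW.mem₀
      (INP.c_ne hW) n₁ hNr χ (fun n₀ => ?_) N n₀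
    exact h1 A B V f hS hTor ι R u el lam hG K₀ Bn hX.b0 hX.cop hKT hk₀ hkK C hE c₀ hW.mem₀ hc₀ χ n₀
  exact
    { mem := hW.mem
      ne := hW.ne
      mem₀ := hW.mem₀
      norm := hW.norm
      prime := hW.prime
      su := hW.su
      nrm := hW.nrm
      kol := hW.kol
      i3 := hI3 }

end

end Pool.Agent.NSI
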