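import Pool.Agent.ME.DefsE2
import Pool.Agent.ME.Lib
import Pool.Agent.NS.I_TEI
import Pool.Agent.ME.N.StIN
import Pool.Agent.MUX.XLib
/-!
# MUX-NS, block IN, module TEI: existence of the Teichmueller character (helper80)

`P = 3 O` is a prime ideal with nine residue classes, so `x ^ 8 ≡ 1` modulo `3` for `x ∉ P`. For such an `x`
there is exactly one 8th root of unity `η` with `v (emb x - η) < 1`, and then `v (emb x - η) ≤ v 3`
(the product of the `emb x - η` is `emb x ^ 8 - 1`, and different 8th roots of unity differ by units at `V`).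
Put `w x = η`, and `w x = 0` for `x ∈ P`; everything follows from the uniqueness.
-/

set_option autoImplicit false

namespace Pool.Agent.NSI

open _root_.MU3 Pool.Agent.MU3 Pool.Agent.MU3A Pool.Agent.MU3B Pool.Agent.RI Pool.Agent.RID
  Pool.Agent.MUX Pool.Agent.ME Pool.Agent.MUXK Pool.Agent.MUXI Pool.Agent.NS
open Pool.Agent.MU3I (w3 zt)

noncomputable section

namespace TEI

/-! ### 8th roots of unity -/

/-! ### The ring `O` -/

section
variable {A B : ℤ} {V : ValuationSubring ℂ}

end

end TEI

open TEI in
/-- (TEI) existence of the Teichmueller character -/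
theorem tn_TEI_E : Sn_TEI_E := by
  classical
  intro A B V hC hV
  have hc : CQ A B := hC.toCQ
  have v3 := v_three hc hV
  have hP : (idl (A := A) (B := B) 3).IsPrime := prime hc hV
  choose η hη8 hηv using fun (x : OO A B) (hx : x ∉ idl (A := A) (B := B) 3) => exists_eta hc hV hx
  have key : ∀ (x : OO A B) (hx : x ∉ idl (A := A) (B := B) 3) (ξ : ℂ), ξ ^ 8 = 1 →
      V.valuation (ξ - emb x) < 1 → η x hx = ξ := by
    intro x hx ξ hξ hv
    refine root_eq v3 (hη8 x hx) hξ ?_
    have e1 : η x hx - ξ = (η x hx - emb x) - (ξ - emb x) := by ring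
    rw [e1]
    exact lt_of_le_of_lt (V.valuation.map_sub _ _) (max_lt (lt_of_le_of_lt (hηv x hx) v3) hv)
  refine ⟨fun x => if hx : x ∈ idl (A := A) (B := B) 3 then 0 else η x hx, ?_, ?_, ?_, ?_, ?_, ?_⟩
  · have h1 : (1 : OO A B) ∉ idl (A := A) (B := B) 3 := (Ideal.ne_top_iff_one _).1 hP.ne_top
    rw [dif_neg h1]
    refine key 1 h1 1 (one_pow 8) ?_
    rw [emb_one hc, sub_self, map_zero]
    exact zero_lt_one
  · intro x y
    by_cases hx : x ∈ idl (A := A) (B := B) 3
    · rw [dif_pos hx, dif_pos (Ideal.mul_mem_right y _ hx), zero_mul]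
    · by_cases hy : y ∈ idl (A := A) (B := B) 3
      · rw [dif_pos hy, dif_pos (Ideal.mul_mem_left _ x hy), mul_zero]
      · have hxy : x * y ∉ idl (A := A) (B := B) 3 := fun h => (hP.mem_or_mem h).elim hx hy
        rw [dif_neg hx, dif_neg hy, dif_neg hxy]
        refine key (x * y) hxy _ (by rw [mul_pow, hη8, hη8, one_mul]) ?_
        have e1 : η x hx * η y hy - emb (x * y) =
            η x hx * (η y hy - emb y) + emb y * (η x hx - emb x) := by
          rw [emb_mul hc]
          ring
        rw [e1]
        refine lt_of_le_of_lt (V.valuation.map_add _ _) (max_lt ?_ ?_)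
        · rw [map_mul, v_root (hη8 x hx), one_mul]
          exact lt_of_le_of_lt (hηv y hy) v3
        · rw [map_mul]
          exact lt_of_le_of_lt (mul_le_of_le_one_left' (v_emb hc V y))
            (lt_of_le_of_lt (hηv x hx) v3)
  · intro x y hxy
    by_cases hx : x ∈ idl (A := A) (B := B) 3
    · have hy : y ∈ idl (A := A) (B := B) 3 := by
        have h := Ideal.sub_mem _ hx hxy
        rwa [sub_sub_cancel] at h
      rw [dif_pos hx, dif_pos hy]
    · have hy : y ∉ idl (A := A) (B := B) 3 := by
        intro h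
        apply hx
        have h := Ideal.add_mem _ hxy h
        rwa [sub_add_cancel] at h
      rw [dif_neg hx, dif_neg hy]
      refine key x hx _ (hη8 y hy) ?_
      have e1 : η y hy - emb x = (η y hy - emb y) - emb (x - y) := by
        rw [emb_sub hc]
        ring
      rw [e1]
      exact lt_of_le_of_lt (V.valuation.map_sub _ _)
        (max_lt (lt_of_le_of_lt (hηv y hy) v3) (lt_of_le_of_lt (v_mem hc V hxy) v3))
  · intro x hx
    rw [dif_pos hx]
  · intro x hx
    rw [dif_neg hx]
    exact hη8 x hx
  · intro x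
    by_cases hx : x ∈ idl (A := A) (B := B) 3
    · rw [dif_pos hx, zero_sub, Valuation.map_neg]
      exact v_mem hc V hx
    · rw [dif_neg hx]
      exact hηv x hx

end

end Pool.Agent.NSI
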