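import Pool.Agent.ME.Lib
import Pool.Agent.MUX.I_TH

/-!
# ME, block I: the sum over the `x ≡ 1` modulo `2` (helper36)

For a function on `O/m`, `2 ∣ m`, invariant under the units and supported on the elements prime to `2`, the sum over the `x ≡ 1` modulo `2` is `1/r` times the sum
over all `x`, `r = rE A B`.
-/

set_option autoImplicit false

namespace Pool.Agent.ME

open _root_.MU3 Pool.Agent.MU3A Pool.Agent.MU3B Pool.Agent.RI Pool.Agent.MUX Pool.Agent.NS
  Pool.Agent.NSRD Polynomial OnePoint

noncomputable section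

namespace USum

variable {A B : ℤ}

/-- representatives of the units modulo `± 1` -/
def T (A B : ℤ) : Finset (OO A B) :=
  if B = 0 then {1, ⟨0, 1⟩} else {1, ⟨0, 1⟩, ⟨1, -1⟩}

lemma T_unit (h : CaseE A B) {t : OO A B} (ht : t ∈ T A B) : IsUnit t := by
  unfold T at ht
  rcases h.or with ⟨-, hB⟩ | ⟨-, hB⟩
  · rw [if_pos hB] at ht
    simp only [Finset.mem_insert, Finset.mem_singleton] at ht
    rcases ht with rfl | rfl
    · exact isUnit_one
    · exact isUnit_w h
  · rw [if_neg (by rw [hB]; norm_num)] at ht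
    simp only [Finset.mem_insert, Finset.mem_singleton] at ht
    rcases ht with rfl | rfl | rfl
    · exact isUnit_one
    · exact isUnit_w h
    · exact isUnit_w' h hB

lemma T_card (h : CaseE A B) : (T A B).card = rE A B := by
  have e1 : (1 : OO A B) = ⟨1, 0⟩ := rfl
  unfold T rE
  rcases h.or with ⟨-, hB⟩ | ⟨-, hB⟩
  · rw [if_pos hB, if_pos hB, Finset.card_pair]
    rw [e1]
    intro h1
    have := congrArg QuadraticAlgebra.re h1
    simp at this
  · have hB' : B ≠ 0 := by rw [hB]; norm_num
    rw [if_neg hB', if_neg hB', Finset.card_insert_of_notMem, Finset.card_pair]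
    · intro h1
      have := congrArg QuadraticAlgebra.re h1
      simp at this
    · simp only [Finset.mem_insert, Finset.mem_singleton, not_or]
      refine ⟨fun h1 => ?_, fun h1 => ?_⟩
      · rw [e1] at h1
        have := congrArg QuadraticAlgebra.re h1
        simp at this
      · rw [e1] at h1
        have := congrArg QuadraticAlgebra.im h1
        simp at this

/-- every unit is `± t` -/
lemma T_cov (h : CaseE A B) {z : OO A B} (hz : IsUnit z) : z ∈ T A B ∨ -z ∈ T A B := by
  have e3 : (-⟨0, -1⟩ : OO A B) = ⟨0, 1⟩ := by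
    ext <;> simp
  have e4 : (-⟨-1, 1⟩ : OO A B) = ⟨1, -1⟩ := by
    ext <;> simp
  unfold T
  by_cases hB : B = 0
  · simp only [if_pos hB, Finset.mem_insert, Finset.mem_singleton]
    rcases unit_list h hz with rfl | rfl | rfl | rfl | ⟨hB1, -⟩
    · left; left; rfl
    · right; left; rw [neg_neg]
    · left; right; rfl
    · right; right; exact e3
    · rw [hB] at hB1; norm_num at hB1
  · simp only [if_neg hB, Finset.mem_insert, Finset.mem_singleton]
    rcases unit_list h hz with rfl | rfl | rfl | rfl | ⟨-, rfl | rfl⟩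
    · left; left; rfl
    · right; left; rw [neg_neg]
    · left; right; left; rfl
    · right; right; left; exact e3
    · left; right; right; rfl
    · right; right; right; exact e4

/-- two different elements of `T` are not congruent modulo `2` -/
lemma T_inj {t t' : OO A B} (ht : t ∈ T A B) (ht' : t' ∈ T A B)
    (hd : t - t' ∈ idl (A := A) (B := B) 2) : t = t' := by
  have e1 : (1 : OO A B) = ⟨1, 0⟩ := rfl
  rw [mem_two] at hd
  obtain ⟨h1, h2⟩ := hd
  rw [QuadraticAlgebra.re_sub] at h1
  rw [QuadraticAlgebra.im_sub] at h2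
  unfold T at ht ht'
  by_cases hB : B = 0
  · rw [if_pos hB] at ht ht'
    simp only [Finset.mem_insert, Finset.mem_singleton] at ht ht'
    rcases ht with rfl | rfl <;> rcases ht' with rfl | rfl <;>
      simp [QuadraticAlgebra.re_one, QuadraticAlgebra.im_one] at h1 h2 ⊢
  · rw [if_neg hB] at ht ht'
    simp only [Finset.mem_insert, Finset.mem_singleton] at ht ht'
    rcases ht with rfl | rfl | rfl <;> rcases ht' with rfl | rfl | rfl <;>
      simp [QuadraticAlgebra.re_one, QuadraticAlgebra.im_one] at h1 h2 ⊢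

open Classical in
lemma T_sum (h : CaseE A B) {x : OO A B} (c : ℂ) (hx : c ≠ 0 → IsCoprime x (2 : OO A B)) :
    ∑ t ∈ T A B, (if t * x - 1 ∈ idl (A := A) (B := B) 2 then c else 0) = c := by
  by_cases hc : c = 0
  · rw [hc]
    refine Finset.sum_eq_zero fun t _ => ?_
    split_ifs <;> rfl
  · have hcop := hx hc
    have h2m : (2 : OO A B) ∈ idl (A := A) (B := B) 2 := by
      rw [mem_two]
      constructor
      · exact ⟨1, rfl⟩
      · exact ⟨0, rfl⟩
    obtain ⟨z, hz, hzx⟩ := unit_ex h hcop
    obtain ⟨t, ht, htx⟩ : ∃ t ∈ T A B, t * x - 1 ∈ idl (A := A) (B := B) 2 := by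
      rcases T_cov h hz with h1 | h1
      · exact ⟨z, h1, hzx⟩
      · refine ⟨-z, h1, ?_⟩
        have h3 : -z * x - 1 = -(z * x - 1) - 2 := by ring
        rw [h3]
        exact sub_mem (neg_mem hzx) h2m
    rw [Finset.sum_eq_single t, if_pos htx]
    · intro t' ht' hne
      rw [if_neg]
      intro h3
      apply hne
      refine T_inj ht' ht ?_
      have h4 : (t' - t) * x ∈ idl (A := A) (B := B) 2 := by
        have h5 : (t' - t) * x = (t' * x - 1) - (t * x - 1) := by ring
        rw [h5]
        exact sub_mem h3 htx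
      obtain ⟨a, b, hab⟩ := hcop
      have h6 : t' - t = a * ((t' - t) * x) + (b * (t' - t)) * 2 := by
        linear_combination (-(t' - t)) * hab
      rw [h6]
      exact add_mem (Ideal.mul_mem_left _ _ h4) (Ideal.mul_mem_left _ _ h2m)
    · intro h3
      exact absurd ht h3

open Classical in
/-- the sum over the `x ≡ 1` modulo `2` -/
theorem usum (h : CaseE A B) {m : ℕ} (hm : m ≠ 0) (h2 : 2 ∣ m) (G : OO A B → ℂ)
    (per : ∀ x y : OO A B, x - y ∈ idl (A := A) (B := B) m → G x = G y)
    (supp : ∀ x, G x ≠ 0 → IsCoprime x (2 : OO A B))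
    (unit : ∀ z x : OO A B, IsUnit z → G (z * x) = G x) :
    (rE A B : ℂ) * ∑ᶠ q : OO A B ⧸ idl (A := A) (B := B) m,
      (if (Quotient.out q : OO A B) - 1 ∈ idl (A := A) (B := B) 2 then G (Quotient.out q) else 0) =
    ∑ᶠ q : OO A B ⧸ idl (A := A) (B := B) m, G (Quotient.out q) := by
  have hfin : Finite (OO A B ⧸ idl (A := A) (B := B) m) := MUXI.TH.finR m hm
  have : Fintype (OO A B ⧸ idl (A := A) (B := B) m) := Fintype.ofFinite _
  have hle : idl (A := A) (B := B) m ≤ idl (A := A) (B := B) 2 := by
    obtain ⟨k, rfl⟩ := h2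
    refine Ideal.span_singleton_le_span_singleton.2 ⟨(k : OO A B), ?_⟩
    push_cast
    rfl
  rw [finsum_eq_sum_of_fintype, finsum_eq_sum_of_fintype]
  set F : (OO A B ⧸ idl (A := A) (B := B) m) → ℂ := fun q =>
    if (Quotient.out q : OO A B) - 1 ∈ idl (A := A) (B := B) 2 then G (Quotient.out q) else 0 with hF
  have hout : ∀ (t : OO A B) (q : OO A B ⧸ idl (A := A) (B := B) m),
      (Quotient.out (Ideal.Quotient.mk _ t * q) : OO A B) - t * Quotient.out q ∈
        idl (A := A) (B := B) m := by
    intro t q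
    rw [← Ideal.Quotient.eq, Ideal.Quotient.mk_out, map_mul, Ideal.Quotient.mk_out]
  have hFt : ∀ t : OO A B, IsUnit t → ∀ q, F (Ideal.Quotient.mk _ t * q) =
      if t * (Quotient.out q : OO A B) - 1 ∈ idl (A := A) (B := B) 2 then G (Quotient.out q)
        else 0 := by
    intro t ht q
    have h3 := hout t q
    have h4 : (Quotient.out (Ideal.Quotient.mk _ t * q) : OO A B) - 1 ∈ idl (A := A) (B := B) 2 ↔
        t * (Quotient.out q : OO A B) - 1 ∈ idl (A := A) (B := B) 2 := by
      have h5 := hle h3
      constructor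
      · intro h6
        have h7 := sub_mem h6 h5
        rwa [sub_sub_sub_cancel_left] at h7
      · intro h6
        have h7 := add_mem h5 h6
        rwa [sub_add_sub_cancel] at h7
    show (if _ then _ else _) = _
    rw [if_congr h4 (by rw [per _ _ h3, unit t _ ht]) rfl]
  have h5 : ∑ q : OO A B ⧸ idl (A := A) (B := B) m, G (Quotient.out q) =
      ∑ q : OO A B ⧸ idl (A := A) (B := B) m, ∑ t ∈ T A B,
        F (Ideal.Quotient.mk _ t * q) := by
    refine Finset.sum_congr rfl fun q _ => ?_
    rw [← T_sum h (x := Quotient.out q) (G (Quotient.out q)) (supp _)]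
    exact Finset.sum_congr rfl fun t ht => (hFt t (T_unit h ht) q).symm
  rw [h5, Finset.sum_comm]
  have h6 : ∀ t ∈ T A B, ∑ q : OO A B ⧸ idl (A := A) (B := B) m,
      F (Ideal.Quotient.mk _ t * q) = ∑ q, F q := by
    intro t ht
    obtain ⟨u, hu⟩ := (T_unit h ht).map (Ideal.Quotient.mk (idl (A := A) (B := B) m))
    have h7 := Equiv.sum_comp (Units.mulLeft u) F
    rw [← h7]
    refine Finset.sum_congr rfl fun q _ => ?_
    rw [Units.mulLeft_apply, hu]
  rw [Finset.sum_congr rfl h6, Finset.sum_const, T_card h, nsmul_eq_mul]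

end USum

end

end Pool.Agent.ME
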