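import Pool.Agent.ME.DefsE2
import Pool.Agent.ME.Lib
import Pool.Agent.NS.I_TH
import Pool.Agent.ME.N.StIN
import Pool.Agent.ME.X.I_TH
import Pool.Agent.ME.N.USum
/-!
# MUX-NS, block IN: module TH, the sums `That_j`, no condition on the decomposition of `p` (frame ME: the sum over the `x ≡ 1` modulo `2` is `1/r` times the sum
over all `x`)
-/

set_option autoImplicit false

namespace Pool.Agent.NSI

open _root_.MU3 Pool.Agent.MU3 Pool.Agent.MU3A Pool.Agent.MU3B Pool.Agent.RI Pool.Agent.RID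
  Pool.Agent.MUX Pool.Agent.ME Pool.Agent.MUXK Pool.Agent.MUXI Pool.Agent.NS
open Pool.Agent.MU3I (w3 zt)

noncomputable section

namespace TH

/-! ### One summand -/

lemma muX_ne_E {p : ℕ} {A B : ℤ} {f : ℕ}
    (hS : SetL p A B f) {ι : Type} (R : RepsE A B (p * f) ι) (i : ι) : muXE R i ≠ 0 := by
  have h1 : nI (R.b i) ≠ 0 := by
    intro h0
    have h2 := R.cop i
    rw [h0, Nat.coprime_zero_left] at h2
    have h3 : p = 1 := Nat.eq_one_of_mul_eq_one_right h2
    rcases q0_cases hS.hp with ⟨h5, -⟩ | ⟨h5, -⟩ <;> omega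
  unfold muXE
  refine div_ne_zero (mul_ne_zero (R.nl i).om_ne ?_) (R.nl R.i0).om_ne
  exact_mod_cast h1

lemma ptE_mul {A B : ℤ} (hC : CQ A B) {n : ℕ} {ι : Type} (R : RepsE A B n ι) (m : ℕ) (i : ι)
    (z x : OO A B) : ptE R m i (z * x) = emb z * ptE R m i x := by
  unfold ptE
  rw [emb_mul hC]
  ring

/-- norms of congruent elements are congruent -/
lemma nm_per {A B : ℤ} {m : ℕ} {x y : OO A B} (h : x - y ∈ idl (A := A) (B := B) m) :
    (m : ℤ) ∣ nm x - nm y := by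
  obtain ⟨t, ht⟩ := Ideal.mem_span_singleton.1 h
  obtain ⟨h1, h2⟩ := (MUXI.TH.nat_dvd_iff m (x - y)).1 ⟨t, ht⟩
  rw [QuadraticAlgebra.re_sub] at h1
  rw [QuadraticAlgebra.im_sub] at h2
  obtain ⟨s, hs⟩ := h1
  obtain ⟨t', ht'⟩ := h2
  unfold nm
  have e1 : x.re = y.re + m * s := by linarith
  have e2 : x.im = y.im + m * t' := by linarith
  rw [e1, e2]
  refine ⟨2 * y.re * s + m * s ^ 2 + B * (y.re * t' + s * y.im + m * s * t') -
    A * (2 * y.im * t' + m * t' ^ 2), ?_⟩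
  ring

end TH

open TH in
open Classical in
/-- (TH) the sums `That_j` -/
theorem tn_TH_E (h1 : Sn_TSH_E) (hP : Pool.Agent.MUXI.Si_PTP_E) : Sn_TH_E := by
  intro p A B f hS hE2 h2 g hlv hg ι _ R n G _ _ γ Δ _ X hM χ e0 kp c w e s _ _ hE hs hs2 hes hχ j
  have hfin : Finite (OO A B ⧸ idl (A := A) (B := B) (lvX p f n)) := MUXI.TH.finR _ (lvX_ne hS n)
  rw [MUXI.TH.sum_disj (fun δ : Δ => X (γ ^ j * (δ : G)))
    (fun q δ δ' h2 h4 => Subtype.ext (mul_left_cancel (hM.uniq q _ _ h2 h4)))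
    (fun δ => (((χ δ)⁻¹ : ℂˣ) : ℂ)) _ (fun q => kp q.1 * e0 (Quotient.out q.2))
    (fun δ q hq => hχ δ j q hq)]
  set GG : ι → OO A B → ℂ := fun i x =>
      kp i * c i * (if s = 1 then 1 else (w3 (nI (R.b i)) : ℂ)) *
      ((if ((q0 p * p ^ n : ℕ) : ℤ) ∣ nm x * nI (R.b i) -
          (1 + (q0 p : ℤ)) ^ j then
        e x * dlX (R.L i) (aX p f) (ptE R (lvX p f n) i x) else 0) +
      s * (if ((q0 p * p ^ n : ℕ) : ℤ) ∣ nm x * nI (R.b i) -
          -(1 + (q0 p : ℤ)) ^ j then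
        e x * dlX (R.L i) (aX p f) (ptE R (lvX p f n) i x) else 0)) with hGG
  have hind : ∀ q : ι × (OO A B ⧸ idl (A := A) (B := B) (lvX p f n)),
      (if ∃ δ : Δ, q ∈ X (γ ^ j * (δ : G)) then
        kp q.1 * e0 (Quotient.out q.2) * (w (Quotient.out q.2) *
        c q.1 * dlX (R.L q.1) (aX p f) (ptE R (lvX p f n) q.1 (Quotient.out q.2))) else 0) =
      if (Quotient.out q.2 : OO A B) - 1 ∈ idl (A := A) (B := B) 2 then
        GG q.1 (Quotient.out q.2) else 0 := by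
    intro q
    rw [if_congr (MUXI.TH.mem_iff_E hM q j) rfl rfl, ite_and]
    refine if_congr Iff.rfl ?_ rfl
    exact term hS n hg hE.toIsEI hs hs2 hes _ j _ _ _ _
  have hlvd : ((q0 p * p ^ n : ℕ) : ℤ) ∣ ((lvX p f n : ℕ) : ℤ) := ⟨(f : ℤ), by
    unfold lvX; push_cast; ring⟩
  have hq02 : p = 2 → (2 : ℤ) ∣ ((q0 p * p ^ n : ℕ) : ℤ) := by
    rintro rfl
    exact ⟨2 * 2 ^ n, by
      rw [show q0 2 = 4 from rfl]; push_cast; ring⟩
  have hle0 : idl (A := A) (B := B) (lvX p f n) ≤ idl (A := A) (B := B) (lvX p f 0) := by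
    refine Ideal.span_singleton_le_span_singleton.2 ⟨((p ^ n : ℕ) : OO A B), ?_⟩
    unfold lvX
    push_cast
    ring
  have h2n : 2 ∣ lvX p f n := by
    refine h2.trans ⟨p ^ n, ?_⟩
    unfold lvX
    ring
  have hus : ∀ i : ι, (rE A B : ℂ) * ∑ᶠ q : OO A B ⧸ idl (A := A) (B := B) (lvX p f n),
      (if (Quotient.out q : OO A B) - 1 ∈ idl (A := A) (B := B) 2 then
        GG i (Quotient.out q) else 0) =
      ∑ᶠ q : OO A B ⧸ idl (A := A) (B := B) (lvX p f n), GG i (Quotient.out q) := by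
    intro i
    refine USum.usum hE2 (lvX_ne hS n) h2n (GG i) ?_ ?_ ?_
    · intro x y hxy
      have e1 : e x = e y := hE.per x y (hlv (hle0 hxy))
      have e2 := (hP A B hE2.toCQ (p * f) ι R (lvX p f n) (lvX_ne hS n) i).1 x y hxy
      have e3 := e2.2.2 (aX p f)
      have e4 : ∀ t : ℤ, ((q0 p * p ^ n : ℕ) : ℤ) ∣ nm x * nI (R.b i) - t ↔
          ((q0 p * p ^ n : ℕ) : ℤ) ∣ nm y * nI (R.b i) - t := by
        intro t
        have e5 : ((q0 p * p ^ n : ℕ) : ℤ) ∣ (nm x - nm y) * nI (R.b i) :=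
          (hlvd.trans (nm_per hxy)).mul_right _
        have e6 : nm x * nI (R.b i) - t = (nm y * nI (R.b i) - t) + (nm x - nm y) * nI (R.b i) := by
          ring
        rw [e6]
        exact (Int.dvd_add_left e5)
      simp only [hGG]
      rw [e1, e3, if_congr (e4 _) rfl rfl, if_congr (e4 _) rfl rfl]
    · intro x hx
      -- `e x ≠ 0` and one of the congruences
      have e1 : e x ≠ 0 := by
        intro h0
        apply hx
        simp only [hGG, h0, zero_mul, ite_self, mul_zero, add_zero]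
      have e2 : ∃ t : ℤ, ((q0 p * p ^ n : ℕ) : ℤ) ∣ nm x * nI (R.b i) - t ∧
          (q0 p : ℤ) ∣ t ^ 2 - 1 := by
        have e7 : (q0 p : ℤ) ∣ ((1 + (q0 p : ℤ)) ^ j) - 1 := MUXI.TH.pow_mod _ _
        by_contra hno
        apply hx
        have n1 : ¬ ((q0 p * p ^ n : ℕ) : ℤ) ∣ nm x * nI (R.b i) - (1 + (q0 p : ℤ)) ^ j :=
          fun h5 => hno ⟨_, h5, by
            have e8 : ((1 + (q0 p : ℤ)) ^ j) ^ 2 - 1 =
              ((1 + (q0 p : ℤ)) ^ j - 1) * ((1 + (q0 p : ℤ)) ^ j + 1) := by ring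
            rw [e8]
            exact e7.mul_right _⟩
        have n2 : ¬ ((q0 p * p ^ n : ℕ) : ℤ) ∣ nm x * nI (R.b i) - -(1 + (q0 p : ℤ)) ^ j :=
          fun h5 => hno ⟨_, h5, by
            have e8 : (-(1 + (q0 p : ℤ)) ^ j) ^ 2 - 1 =
              ((1 + (q0 p : ℤ)) ^ j - 1) * ((1 + (q0 p : ℤ)) ^ j + 1) := by ring
            rw [e8]
            exact e7.mul_right _⟩
        simp only [hGG]
        rw [if_neg n1, if_neg n2]
        ring
      rcases q0_cases hS.hp with ⟨h5, h6⟩ | ⟨h5, h6⟩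
      · -- `p = 3`: `2 ∣ f`
        have h7 : 2 ∣ f := by
          unfold lvX at h2
          rw [h6, pow_zero, mul_one] at h2
          omega
        have h8 : IsCoprime x ((f : ℕ) : OO A B) := cop_f hg ((hE.supp x).1 e1)
        obtain ⟨k, hk⟩ := h7
        have h9 : (2 : OO A B) ∣ ((f : ℕ) : OO A B) := ⟨(k : OO A B), by rw [hk]; push_cast; rfl⟩
        exact h8.of_isCoprime_of_dvd_right h9
      · -- `p = 2`: the norm is odd
        obtain ⟨t, ht, ht2⟩ := e2
        have h7 : ¬ (2 : ℤ) ∣ nm x := by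
          intro h8
          have h9 := (hq02 h5).trans ht
          have h10 : (2 : ℤ) ∣ nm x * nI (R.b i) := h8.mul_right _
          have h11 : (2 : ℤ) ∣ t := by
            have h12 := dvd_sub h10 h9
            rwa [sub_sub_cancel] at h12
          rw [h6] at ht2
          have h13 : (2 : ℤ) ∣ t ^ 2 - 1 := (by norm_num : (2 : ℤ) ∣ ((4 : ℕ) : ℤ)).trans ht2
          have h14 : (2 : ℤ) ∣ t ^ 2 := dvd_pow h11 two_ne_zero
          omega
        have h8 : IsCoprime (nm x) (2 : ℤ) :=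
          ((Prime.coprime_iff_not_dvd Int.prime_two).2 h7).symm
        have h9 : IsCoprime ((nm x : ℤ) : OO A B) ((2 : ℤ) : OO A B) := h8.intCast
        rw [← MUXI.TH.mul_star_nm] at h9
        have h10 := h9.of_mul_left_left
        rwa [Int.cast_ofNat] at h10
    · intro z x hz
      have e1 : nm (z * x) = nm x := by
        rw [nm_mul hE2.toCQ, (isUnit_nm hE2 z).1 hz, one_mul]
      have e2 : e (z * x) = emb z * e x := by rw [hE.mul, hE.unit z hz]
      have e3 : dlX (R.L i) (aX p f) (ptE R (lvX p f n) i (z * x)) =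
          dlX (R.L i) (aX p f) (ptE R (lvX p f n) i x) / emb z := by
        rw [ptE_mul hE2.toCQ]
        exact dlX_unit hE2 (R.nl i).toIsLI hz _ _
      have hz0 : emb z ≠ 0 := emb_ne_zero hE2.toCQ fun h0 => not_isUnit_zero (by
        haveI := isDomain hE2.toCQ
        exact (h0 ▸ hz : IsUnit (0 : OO A B)))
      have e4 : e (z * x) * dlX (R.L i) (aX p f) (ptE R (lvX p f n) i (z * x)) =
          e x * dlX (R.L i) (aX p f) (ptE R (lvX p f n) i x) := by
        rw [e2, e3]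
        field_simp
      simp only [hGG]
      rw [e1, e4]
  rw [finsum_congr hind, MUXI.TH.sum_pairs, Finset.mul_sum, Finset.sum_congr rfl fun i _ => hus i]
  unfold STXE
  rw [Finset.mul_sum, ← Finset.sum_add_distrib]
  refine Finset.sum_congr rfl fun i _ => ?_
  have hT := h1 p A B f hS g hlv ι R n e hE.toIsEI i ((1 + (q0 p : ℤ)) ^ j)
  have hT' := h1 p A B f hS g hlv ι R n e hE.toIsEI i (-(1 + (q0 p : ℤ)) ^ j)
  rw [MUXI.TH.comb_sum (kp i * c i * (if s = 1 then 1 else (w3 (nI (R.b i)) : ℂ))) (s : ℂ) _ _ _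
    (fun x => rfl), ← hT, ← hT']
  have hmu := muX_ne_E hS R i
  unfold kkC_E sumMod
  field_simp

end

end Pool.Agent.NSI
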