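import Pool.Agent.ME.DefsE2
import Pool.Agent.ME.Lib
import Pool.Agent.NS.IAll
import Pool.Agent.ME.X.IAll
import Pool.Agent.ME.N.I_EPS
import Pool.Agent.ME.N.I_TEI
import Pool.Agent.NS.I_FOU
import Pool.Agent.ME.N.I_E0
import Pool.Agent.ME.N.I_SUB
import Pool.Agent.ME.N.I_XMX
import Pool.Agent.ME.N.I_TSH
import Pool.Agent.ME.N.I_TH
import Pool.Agent.ME.N.I_I31
import Pool.Agent.ME.N.I_INP
/-!
# MUX-NS, block IN: all statements of `StIN.lean` (helper36). The only input is `Sn_HFIN` (block H)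
-/

set_option autoImplicit false

namespace Pool.Agent.NSI

open Pool.Agent.ME

open Pool.Agent.MUXF Pool.Agent.MUXU Pool.Agent.MUXY Pool.Agent.MUXK Pool.Agent.MUXI

theorem n_EPS_E : Sn_EPS_E := tn_EPS_E
theorem n_TEI_E : Sn_TEI_E := tn_TEI_E
theorem n_E0_E : Sn_E0_E := tn_E0_E i_ARF_E xf_NIM
theorem n_SUB_E : Sn_SUB_E := tn_SUB_E i_LAY i_IAF_E
theorem n_XMX_E : Sn_XMX_E := tn_XMX_E i_XXF_E i_ARF_E i_LAY
theorem n_TSH_E : Sn_TSH_E := tn_TSH_E i_PTP_E xf_ALG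
theorem n_TH_E : Sn_TH_E := tn_TH_E n_TSH_E i_PTP_E
theorem n_I31_E (hH : Pool.Agent.NS.Sn_HFIN_E) : Sn_I31_E :=
  tn_I31_E Pool.Agent.MUXJ.j_RES i_CHI n_FOU Pool.Agent.MU3I.t_ITG n_EPS_E n_TEI_E n_E0_E i_ARF_E i_XXF_E n_SUB_E
    i_GAM n_XMX_E i_BIJ n_TH_E i_GEN hH k_GALX

/-- the result of block IN -/
theorem n_INP_E (hH : Pool.Agent.NS.Sn_HFIN_E) : Sn_INP_E := tn_INP_E (n_I31_E hH) n_LEM1 n_NRX

end Pool.Agent.NSI
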