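import Pool.Agent.ME.DefsE2
import Pool.Agent.NS.StGR
import Pool.Agent.NS.StGN
import Pool.Agent.MUX.StGX
import Pool.Agent.MUX.StGF
import Pool.Agent.MUX.StHR
/-!
# MUX-NS, block GR (helper87): Theorem G+ and the producers of `HypR`, ramified case (`3 = P²`, `D ≠ -3`)

Definitions: `NS/DefsR.lean`, `NS/StGN.lean`. THEOREM G+: let `g = Σ b_n q^n` be a form in the span with `b_n = 0` for `3 ∣ n` (depleted), all closed periods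
divided by `Om` in `V`. Then `v(b_1)^12 ≤ v 3` (additively: at least `1/12`). IDEA. `Z = ∫ g`, `Z(τ) + Z(τ + 1/3) + Z(τ + 2/3) = 0`, so the three points
`Q = (X, Y)`, `α Q`, `α² Q` (`α : q ↦ ω q`, `ω` a third root of unity) of the curve over the field of `q`-series are collinear, and `α ≡ 1` modulo `ω - 1`, `v(ω - 1)² = v 3`.
Then as in helper3's Gauss lemma (`Sg_GV`, `Sg_GP`, `Sg_BIN`, `Sg_GJ`, `Sg_GTHX`).

Every statement is a `def Sv_X : Prop`; the module NSG_X (table `modules`: `NSGR_X`) proves `theorem tv_X (h : ..) .. : Sv_X` in `Pool/Agent/NS/GR_X.lean`, namespace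
`Pool.Agent.NSGR` (private lemmas in `Pool.Agent.NSGR.X`), with the statements named under USES as hypotheses (fewer is fine). Unconditional and usable: `Pool.Agent.MU3B.b_X : St_X`
(`MU3/BAll.lean`), the theorems of `Pool/Agent/MU3/Q_*.lean` (`t_ODE`, `t_ODEK`, ..), `Pool.Agent.MU3A.ta_SCP`, `Pool.Agent.MUXU.u_X : Su_X` (`MUX/UAll.lean`), `Pool.Agent.MUXF.xf_X : Sx_X`
(`MUX/XFAll.lean`). `v = V.valuation`.
-/

set_option autoImplicit false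

namespace Pool.Agent.NSGR

open _root_.MU3 Pool.Agent.MU3A Pool.Agent.MU3B Pool.Agent.MU3Q Pool.Agent.MUX Pool.Agent.ME Pool.Agent.NS
  Pool.Agent.NSRD Pool.Agent.NSG Pool.Agent.MUXN Pool.Agent.MuSym OnePoint UpperHalfPlane
open Pool.Agent.MUXF (qb)
open scoped MatrixGroups

noncomputable section

/-! ## Definitions -/

/-- the part of the family of weights with `N b_i ≡ 1` modulo `3` -/
def kkp_E {A B : ℤ} {n : ℕ} {ι : Type} (R : RepsE A B n ι) (kk : ι → ℂ) (i : ι) : ℂ :=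
  open Classical in if (3 : ℤ) ∣ (nI (R.b i) : ℤ) - 1 then kk i else 0

/-- the part with `N b_i ≡ 2` modulo `3` -/
def kkm_E {A B : ℤ} {n : ℕ} {ι : Type} (R : RepsE A B n ι) (kk : ι → ℂ) (i : ι) : ℂ :=
  open Classical in if (3 : ℤ) ∣ (nI (R.b i) : ℤ) - 1 then 0 else kk i

/-- `(Φ⁺ + ι^* Φ⁻)/Om`, `Om = u om_(i0)` -/
def PR_E {A B : ℤ} {n : ℕ} {ι : Type} [Fintype ι] (R : RepsE A B n ι) (e : OO A B → ℂ)
    (kk : ι → ℂ) (u : ℂ) (x y : OnePoint ℚ) : ℂ :=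
  (PhiKE R e (kkp_E R kk) x y +
    PhiKE R e (kkm_E R kk) (mob (-1) 0 0 1 x) (mob (-1) 0 0 1 y)) / (u * R.om R.i0)

/-! ## Theorem G+ -/

/-! ## The lattice, units, denominators -/

/-- (LGR) the lattice `u L_(i0)` in Legendre form, and algebraicity. MODEL: `cub`, `leg_alg_E`, `legN_E` of `NS/G_Leg.lean` (with `GoodR` instead of `GoodN`; `v(1 + lam)² ≤ v 3 < 1` gives `v(1 + lam) < 1`). `Su_SCX` is `Pool.Agent.MUXU.u_SCX`. -/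
def Sv_LGR_E : Prop :=
  ∀ (A B : ℤ) (_ : CQ A B) (_ : TorXE A B) (n : ℕ) (ι : Type) (R : RepsE A B n ι)
    (V : ValuationSubring ℂ) (_ : V.valuation (3 : ℂ) < 1) (u e lam : ℂ)
    (_ : GoodR V (R.L R.i0) u e lam),
    (IsAlgebraic ℚ u ∧ IsAlgebraic ℚ e ∧ IsAlgebraic ℚ lam) ∧
    ∃ (L' : PeriodPair), LegN A B V L' (u * R.om R.i0) (e / u ^ 2) lam

/-! ## The exponents of the theta series modulo 3 -/

/-- (QB3) the exponents modulo 3.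

PROOF. `e x ≠ 0` gives `IsCoprime (sp x) (idl (3 f))`, so `x ∉ P` (`3 f ∈ P`; `P` is prime, `≠ ⊤`). `O/P` has 3 elements represented by `0, 1, -1` (`IsPN`), so `x - a ∈ P` with `a = ± 1`. `nm x - 1 = nm x - a²`; `x = a + p`, `nm x = a² + a tr p + nm p` with `tr p = p.re*2 + B p.im`, and `p ∈ P` implies `nm p, tr p ∈ P ∩ ℤ = 3 ℤ`: `nm p = p star p ∈ P`;
`tr p = p + star p` and `star p ∈ P`, because `P` is the only prime above `3`: `3 ∣ D`: `(2 p - tr p)² = (p - star p)² = D p.im² ∈ 3 O ⊆ P`, so `p - star p ∈ P` and `star p ∈ P`. So `3 ∣ nm x - 1`. `nm x = nI b * qb b x` (`xf_QB`, or exact division: `Sx_QB`), `N = nI b` is prime to `3`: `qb b x ≡ N⁻¹ ≡ N` modulo `3`. -/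
def Sv_QB3_E : Prop :=
  ∀ (A B : ℤ) (P : Ideal (OO A B)) (V : ValuationSubring ℂ) (f : ℕ), SetE3 A B P V f →
    ∀ e : OO A B → ℂ, IsEI (idl (A := A) (B := B) (3 * f)) e →
    ∀ b : Ideal (OO A B), b ≠ ⊥ → (nI b).Coprime (3 * f) → ∀ x ∈ b, e x ≠ 0 →
      (3 : ℤ) ∣ nm x - 1 ∧ (3 : ℤ) ∣ qb b x - nI b ∧ ¬ (3 : ℤ) ∣ qb b x

/-- (TYI) the type `i ≤ 1` of `e = e0 w`. MODEL: `tv_TYI` (`NS/GR_TYI.lean`).

PROOF. As `Sv_TYI` for `e0` (only its multiplicativity, period `3 f` and `e0^r = 1` are used; `e0 x = e x / w x` for `x ∉ P`): `e0 x = (wP P x)^i` for `x ≡ 1` modulo `f`, `x ∉ P`. `wP P x = w x ^ 3` (`w x ^ 3 ≡ x³ ≡ x ≡ wP P x` modulo `P`, `w x ^ 6 = 1`). -/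
def Sv_TYI_E : Prop :=
  ∀ (A B : ℤ) (P : Ideal (OO A B)) (V : ValuationSubring ℂ) (f : ℕ), SetE3 A B P V f →
    ∀ w : OO A B → ℂ, IsTei6 P V w → ∀ e e0 : OO A B → ℂ,
    IsEIE (idl (A := A) (B := B) (3 * f)) e → (∀ x, e x = e0 x * w x) → ∀ r : ℕ, ¬ 3 ∣ r →
    (∀ x, e0 x ≠ 0 → e0 x ^ r = 1) →
    ∃ i : ℕ, i ≤ 1 ∧ ∀ x, x - 1 ∈ idl (A := A) (B := B) f → x ∉ P → e x = w x ^ (3 * i + 1)

/-- (RLR) the relation `P ∞ (x + 1/3) = om P ∞ x`.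

Uses QB3, SH3. PROOF. `om = exp(2πi/3)`. `PhiI (b_i) e ∞ (r + 1/3) = exp(2πi N/3) PhiI ∞ r`, `N = nI b_i ≡ 1` for the first part; for the second `mob (-1) 0 0 1 (r + 1/3) = -r - 1/3`, factor `exp(-2πi N/3)`, `N ≡ 2`: `exp(-4πi/3) = exp(2πi/3)`. -/
def Sv_RLR_E : Prop :=
  ∀ (A B : ℤ) (P : Ideal (OO A B)) (V : ValuationSubring ℂ) (f : ℕ), SetE3 A B P V f →
    ∀ (ι : Type) [Fintype ι] (R : RepsE A B (3 * f) ι) (e : OO A B → ℂ),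
    IsEI (idl (A := A) (B := B) (3 * f)) e → ∀ (kk : ι → ℂ) (u : ℂ) (x : ℚ),
      PR_E R e kk u ∞ ((x + 1 / 3 : ℚ) : OnePoint ℚ) =
        Complex.exp (2 * Real.pi * Complex.I / 3) * PR_E R e kk u ∞ (x : OnePoint ℚ)

/-- (GPR) Theorem G+ for `PT (PhiKE R e kk/(3 u om_(i0)))`. MODEL: `tv_GPR` (`NS/GR_GPR.lean`).

Uses Sv_GTP, QB3, Sv_SH3, Sv_LCR, LGR and the twin of `gdat` (`NS/G_Gdn.lean`; first coefficient of `thetaIntI ⊤ e'` is `rE = 3` for `e' = σ ∘ e`, `σ` trivial on `k`). PROOF. Index set `ι × EC e × Fin 27` (`EC e` with `σ` trivial on `k`); weights `kk_i/3` at `t = 0`, `-kk_i/3` at `t = 1` (in `Sv_GTP` the weights are arbitrary).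
`Σ w α₁ = (kk_(i0)/3) 3 (1 - ζ_27)`, `v(1 - ζ_27)^18 = v 3`, `v(kk_(i0)) = 1`. `ι` has one element. -/
def Sv_GPR_E : Prop :=
  ∀ (A B : ℤ) (P : Ideal (OO A B)) (V : ValuationSubring ℂ) (f : ℕ), SetE3 A B P V f →
    TorXE A B → ∀ (ι : Type) [Fintype ι] (R : RepsE A B (3 * f) ι) (u el lam : ℂ),
    GoodR V (R.L R.i0) u el lam → ∀ e : OO A B → ℂ, IsEIE (idl (A := A) (B := B) (3 * f)) e →
    ∀ r : ℕ, r ≠ 0 → (∀ x, e x ≠ 0 → e x ^ r = 1) → ∀ kk : ι → ℂ, V.valuation (kk R.i0) = 1 →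
    ∀ N' : ℕ, N' ≠ 0 → absD A B * ((3 * f : ℕ) : ℤ) ^ 2 ∣ (N' : ℤ) →
    ∃ a b c d : ℤ, a * d - b * c = 1 ∧ (N' : ℤ) ∣ c ∧ (N' : ℤ) ∣ d - 1 ∧
      1 < V.valuation (MUXHN.PT (fun x y => PhiKE R e kk x y / (3 * u * R.om R.i0)) ∞
        (mob a b c d ∞))

/-- (GQR) Theorem G+ for `PT (PR_E R e kk (3 u))`; no projector: `ι` has one element, `nI (R.b i) = 1`, `kkp = kk`, `kkm = 0`. -/
def Sv_GQR_E : Prop :=
  ∀ (A B : ℤ) (P : Ideal (OO A B)) (V : ValuationSubring ℂ) (f : ℕ), SetE3 A B P V f →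
    TorXE A B → ∀ (ι : Type) [Fintype ι] (R : RepsE A B (3 * f) ι) (u el lam : ℂ),
    GoodR V (R.L R.i0) u el lam → ∀ e : OO A B → ℂ, IsEIE (idl (A := A) (B := B) (3 * f)) e →
    ∀ r : ℕ, r ≠ 0 → (∀ x, e x ≠ 0 → e x ^ r = 1) → ∀ kk : ι → ℂ, V.valuation (kk R.i0) = 1 →
    ∀ N' : ℕ, N' ≠ 0 → absD A B * ((3 * f : ℕ) : ℤ) ^ 2 ∣ (N' : ℤ) →
    ∃ a b c d : ℤ, a * d - b * c = 1 ∧ (N' : ℤ) ∣ c ∧ (N' : ℤ) ∣ d - 1 ∧
      1 < V.valuation (MUXHN.PT (PR_E R e kk (3 * u)) ∞ (mob a b c d ∞))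

end

end Pool.Agent.NSGR
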