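import Pool.Agent.ME.DefsE2
import Pool.Agent.ME.Lib
import Pool.Agent.NS.GR_RLR
import Pool.Agent.ME.N.StGR
import Pool.Agent.MUX.XLib
/-!
# MUX-NS, block GR, module RLR (helper83): the relation `P ∞ (x + 1/3) = om P ∞ x`
-/

set_option autoImplicit false

namespace Pool.Agent.NSGR

open _root_.MU3 Pool.Agent.MU3A Pool.Agent.MU3B Pool.Agent.MU3Q Pool.Agent.MUX Pool.Agent.ME Pool.Agent.NS
  Pool.Agent.NSRD Pool.Agent.NSG Pool.Agent.MUXN Pool.Agent.MuSym OnePoint UpperHalfPlane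
open Pool.Agent.MUXF (qb)
open scoped MatrixGroups

noncomputable section

namespace RLR

lemma kkp_pos_E {A B : ℤ} {n : ℕ} {ι : Type} (R : RepsE A B n ι) (kk : ι → ℂ) (i : ι)
    (h : (3 : ℤ) ∣ (nI (R.b i) : ℤ) - 1) : kkp_E R kk i = kk i ∧ kkm_E R kk i = 0 := by
  constructor
  · rw [kkp_E, if_pos h]
  · rw [kkm_E, if_pos h]

lemma kkp_neg_E {A B : ℤ} {n : ℕ} {ι : Type} (R : RepsE A B n ι) (kk : ι → ℂ) (i : ι)
    (h : ¬ (3 : ℤ) ∣ (nI (R.b i) : ℤ) - 1) : kkp_E R kk i = 0 ∧ kkm_E R kk i = kk i := by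
  constructor
  · rw [kkp_E, if_neg h]
  · rw [kkm_E, if_neg h]

end RLR

open RLR in
theorem tv_RLR_E (h1 : Sv_QB3_E) (h2 : Sv_SH3) : Sv_RLR_E := by
  intro A B P V f hS ι _ R e he kk u x
  have hC : CQ A B := hS.case.toCQ
  have h3f : 3 * f ≠ 0 := by
    have := hS.f0
    omega
  have hg : idl (A := A) (B := B) (3 * f) ≠ ⊥ := idl_ne hC h3f
  have hq := fun i => h1 A B P V f hS e he (R.b i) (R.nl i).b_ne (R.cop i)
  have hpos : ∀ i, (3 : ℤ) ∣ (nI (R.b i) : ℤ) - 1 →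
      PhiI (R.b i) e ∞ ((x + 1 / 3 : ℚ) : OnePoint ℚ) =
        Complex.exp (2 * Real.pi * Complex.I / 3) * PhiI (R.b i) e ∞ (x : OnePoint ℚ) := by
    intro i hi
    have h := (h2 A B hC (R.b i) _ e (R.nl i).b_ne hg he 1 fun y hy hey => by
      have := (hq i y hy hey).2.1
      have h5 : (3 : ℤ) ∣ (qb (R.b i) y - nI (R.b i)) + (nI (R.b i) - 1) := dvd_add this hi
      rwa [sub_add_sub_cancel] at h5).1 x 1
    push_cast at h
    rw [mul_one, mul_one_div] at h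
    exact h
  have hneg : ∀ i, ¬ (3 : ℤ) ∣ (nI (R.b i) : ℤ) - 1 →
      PhiI (R.b i) e ∞ ((-(x + 1 / 3) : ℚ) : OnePoint ℚ) =
        Complex.exp (2 * Real.pi * Complex.I / 3) * PhiI (R.b i) e ∞ ((-x : ℚ) : OnePoint ℚ) := by
    intro i hi
    have h3 : ¬ (3 : ℤ) ∣ (nI (R.b i) : ℤ) := by
      intro hd
      have h3' : (3 : ℕ) ∣ nI (R.b i) := by exact_mod_cast hd
      have h4 : (3 : ℕ) ∣ Nat.gcd (nI (R.b i)) (3 * f) := Nat.dvd_gcd h3' (dvd_mul_right _ _)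
      rw [Nat.Coprime.gcd_eq_one (R.cop i)] at h4
      omega
    have h := (h2 A B hC (R.b i) _ e (R.nl i).b_ne hg he (-1) fun y hy hey => by
      have := (hq i y hy hey).2.1
      omega).1 (-x) (-1)
    push_cast at h
    have e1 : (-x + -1 / 3 : ℚ) = -(x + 1 / 3) := by ring
    rw [e1] at h
    rw [h]
    congr 2
    ring
  have hP : PhiKE R e (kkp_E R kk) ∞ ((x + 1 / 3 : ℚ) : OnePoint ℚ) =
      Complex.exp (2 * Real.pi * Complex.I / 3) * PhiKE R e (kkp_E R kk) ∞ (x : OnePoint ℚ) := by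
    rw [PhiKE, PhiKE, Finset.mul_sum]
    refine Finset.sum_congr rfl fun i _ => ?_
    by_cases hi : (3 : ℤ) ∣ (nI (R.b i) : ℤ) - 1
    · rw [hpos i hi]; ring
    · rw [(kkp_neg_E R kk i hi).1]; ring
  have hM : PhiKE R e (kkm_E R kk) ∞ ((-(x + 1 / 3) : ℚ) : OnePoint ℚ) =
      Complex.exp (2 * Real.pi * Complex.I / 3) *
        PhiKE R e (kkm_E R kk) ∞ ((-x : ℚ) : OnePoint ℚ) := by
    rw [PhiKE, PhiKE, Finset.mul_sum]
    refine Finset.sum_congr rfl fun i _ => ?_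
    by_cases hi : (3 : ℤ) ∣ (nI (R.b i) : ℤ) - 1
    · rw [(kkp_pos_E R kk i hi).2]; ring
    · rw [hneg i hi]; ring
  rw [PR_E, PR_E, mob_inf, mob_coe, mob_coe, hP, hM]
  ring

end

end Pool.Agent.NSGR
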