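import Pool.Agent.ME.DefsE2
import Pool.Agent.NS.StRN
import Pool.Agent.MUX.StU
import Pool.Agent.MUX.StVX
/-!
# MUX-NS, block RN: reduction of CM curves at the places above 3, 3 not split in `k` (helper58)

`V` a valuation ring of `ℂ`, `v = V.valuation`, `v 3 < 1`, `v 2 = 1`. `X z = xu L u e z = (℘ z - e)/u²`,
`Y z = yu L u z = ℘' z/(2 u³)`: the coordinates of the lattice `u L`, in Legendre form `Y² = X (X - 1)(X - lam)` (`Leg L u e lam`; the same equation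
as in `GoodN`). `GR`, `InK`, `tX` and the lemmas on them (kernel of reduction, `v_X_sub`, `near`, `near_lt`, `v_tX_nat`, `mem_of_nat_mul`, ...): helper59's
`Pool/Agent/MUX/VX.lean`. The theorems `Pool.Agent.MU3B.b_X : St_X` (`MU3/BAll.lean`), `Pool.Agent.MU3A.ta_SCP`, `ta_TW2`, `ta_ROO` (`MU3/A_X.lean`;
unconditional in `MU3/AVAll.lean`) and block U (`MUX/UAll.lean`, `u_X : Su_X`), `Pool.Agent.MUXV.tx_XIC` (`MUX/R_XIC.lean`) may be used directly.

Every `def Sr_X : Prop` is the statement of a module which proves `theorem tr_X (h : Sr_Y) .. : Sr_X` in `Pool/Agent/NS/RN_X.lean`, namespace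
`Pool.Agent.NSR`. Facts on `emb`, ideals, `Tor` for `CQ A B` without hypotheses: `Pool/Agent/MUX/XLib.lean` (helper51). All formulas were checked by computer
or by hand. Except TP3, VAL3, ALP, everything holds for `3` inert and for `3` ramified (structure `CtxA`).
-/

set_option autoImplicit false

open WeierstrassCurve Polynomial

namespace Pool.Agent.NSR

open _root_.MU3 Pool.Agent.MU3A Pool.Agent.MU3B Pool.Agent.RI Pool.Agent.MUX Pool.Agent.ME Pool.Agent.MUXU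
open Pool.Agent.MUXV (GR InK tX)
open Pool.Agent.NS

noncomputable section

/-! ## The Legendre form -/

/-- (ALP) the multiplier `α`, 3 inert.

PROOF. `v 3 < 1`: `3 ∈ idl 3`, `OverI`. `v 2 = 1`: `2 ∉ idl 3` (`⟨2, 0⟩` is not a multiple of 3) and `v 2 ≤ 1`. Generally `v(emb x) = 1` for `x ∉ idl 3`, `v(emb x) ≤ 1` for all `x` (integral over `ℤ`; or `emb x` is a root of a monic polynomial with integer coefficients). `1 - α² = -4 w (1 + w)`, `w = ⟨0, 1⟩`, and `w`, `1 + w` are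
not in `idl 3`: `v(1 - α²) = 1`. `N = nm α = 1 + 2B - 4A` is positive (`= emb(alO') emb(alO)`, `|α|²`), odd, `≥ 3` (`B = 0`: `A ≤ -1`, `N = 1 - 4A`; `B = 1`: `4A < -1`, `A ≤ -1`, `N = 3 - 4A`), and prime to 3: `α ∉ idl 3`, `alO' ∉ idl 3`. -/
def Sr_ALP_E : Prop :=
  ∀ (A B : ℤ) (V : ValuationSubring ℂ), CaseE4 A B → OverI V (idl (A := A) (B := B) 3) →
    (∃ N : ℕ, CtxA A B V N) ∧ V.valuation (1 - al A B ^ 2) = 1

/-! ## Uniqueness of the curve with complex multiplication -/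

/-- (EQL) then `σ` fixes all invariants of a normalised lattice.

Uses LGF. PROOF. `P = lam² - lam + 1`, `Q = (1+lam)(lam-2)(2lam-1)`. `g₂ = -18 g₃`, not both zero (`b_DSC`), so both are not zero, so `P, Q ≠ 0`, `(4/3) u⁴ P = -18 (4/27) u⁶ Q`, `u² = -P/(2Q)`. So `σ(u²) = u²`; `e = -(1+lam)u²/3`, `g₂ = (4/3)(u²)² P`, `g₃`, `kapE = (12 g₂ - 1)/1728` are rational functions of `lam`, `u²` (rational numbers are fixed by `σ`). -/
def Sr_EQL_E : Prop :=
  ∀ (A B : ℤ), CaseE A B → ∀ (L : PeriodPair) (u e lam : ℂ), Leg L u e lam → NrmE A B L →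
    ∀ σ : ℂ ≃+* ℂ, σ lam = lam →
      σ (u ^ 2) = u ^ 2 ∧ σ e = e ∧ σ L.g₂ = L.g₂ ∧ σ L.g₃ = L.g₃ ∧ σ (kapE L) = kapE L

/-- (FXL) and it fixes the `x`-coordinates of the points of order prime to 3.

Uses UNQ, EQL, RED, GRL, TOR, block U. PROOF. (UNQ), (EQL): `IsCj σ L L`, `Φ` with `IsPhi σ L L Φ` (`u_PHI`). Let `z ∉ L`, `F z ∈ L`, `v F = 1`. `Φ z ∉ L`, `F Φ z ∈ L` (`u_TSN`). `xu L u e (Φ z) = (σ(℘ z) - σ e)/σ(u²) = σ(xu L u e z)`, so `v(X(Φ z) - X z) < 1`. `z, Φ z` are not in the kernel of reduction; by `v_X_sub` `Φ z + z` or `Φ z - z` is; it is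
killed by `F`, so it is in `L` (`mem_of_nat_mul`). So `℘(Φ z) = ℘(z)`, i.e. `σ(℘ z) = ℘ z`, `xnE L z = ℘ z - 1/12`. -/
def Sr_FXL_E : Prop :=
  ∀ (A B : ℤ) (V : ValuationSubring ℂ) (N : ℕ), CtxA A B V N →
    ∀ (b : Ideal (OO A B)) (L : PeriodPair) (om : ℂ), IsNE b L om → ∀ u e lam : ℂ, Leg L u e lam →
    V.valuation lam ≤ 1 → ∀ F : ℕ, N ∣ F → V.valuation (F : ℂ) = 1 → ∀ σ : ℂ ≃+* ℂ, FixK A B σ →
    V.valuation (σ lam - lam) < 1 →
    (∀ z ∉ L.lattice, F * z ∈ L.lattice → V.valuation (σ (xu L u e z) - xu L u e z) < 1 ∧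
      V.valuation (σ (yu L u z) - yu L u z) < 1) →
    σ (kapE L) = kapE L ∧ ∀ z ∉ L.lattice, F * z ∈ L.lattice → σ (xnE L z) = xnE L z

/-! ## Fields -/

/-- (MFD) a finite extension which contains all the coordinates.

PROOF. `lam, u², e ∈ RFE (idl 2)`-type facts are hypotheses. `E[F]/L` is finite (`F z ∈ L`; for instance `b_NUM`-type lemma, or `z ≡ (i ω₁ + j ω₂)/F`, `0 ≤ i, j < F`). `RFE (idl (2 F))` is finite dimensional and contains `xnE L z` for `F z ∈ L` (`Tor (idl (2F)) L z`) and `kapE L`; `yy L z ^ 2 = x³ + x²/4 - 36 κ x - κ`, `x = xnE L z` (`derivWeierstrassP_sq`, `g₂ = (1 + 1728κ)/12`, `g₃ = -g₂/18`)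
so `yy L z` is algebraic over `k`. `M = RFE(idl (2F)) ⊔ k(u, yy L z : z ∈ a finite set of representatives)` (`IntermediateField.adjoin` of a finite set of algebraic elements is finite dimensional: `finiteDimensional_adjoin`), `xu = (xnE + 1/12 - e)/u²`, `yu = yy/u³`. -/
def Sr_MFD_E : Prop :=
  ∀ (A B : ℤ), CQ A B → (∀ m : Ideal (OO A B), m ≠ ⊥ → FiniteDimensional (kk A B) (RFE m)) →
    ∀ (b : Ideal (OO A B)) (L : PeriodPair) (om : ℂ), IsNE b L om → ∀ u e lam : ℂ, u ≠ 0 →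
    u ^ 2 ∈ RFE (idl (A := A) (B := B) 2) → e ∈ RFE (idl (A := A) (B := B) 2) →
    lam ∈ RFE (idl (A := A) (B := B) 2) → ∀ F : ℕ, F ≠ 0 →
    ∃ M : IntermediateField (kk A B) ℂ, FiniteDimensional (kk A B) M ∧ lam ∈ M ∧
      ∀ z ∉ L.lattice, F * z ∈ L.lattice → xu L u e z ∈ M ∧ yu L u z ∈ M

/-- (UNR) inertia groups are trivial; every `V` with `CtxA`.

Uses HPD, RED, TOR, LIF, MFD, FXL. PROOF. `RFE (idl f)` is generated over `k` by the `kapE L` and `xnE L z`, `z ∉ L`, `Tor (idl f) L z`, i.e. `f z ∈ L`. `σ` is trivial on `k`. So let `L` be a normalised lattice; we show that `σ` fixes `kapE L` and `xnE L z`, `f z ∈ L`, `z ∉ L`. (HPD): `u`, `e = ℘(w₁)`, `lam`; `℘(w_i) = xnE L w_i + 1/12 ∈ RFE (idl 2)`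
(`Tor (idl 2) L w_i`: `emb (2 y) w_i = emb y (2 w_i) ∈ L`), so `u², e, lam ∈ RFE (idl 2)`. `F = N f`, `v F = 1` (`v f = 1`: `3 ∤ f` and Bezout, `v 3 < 1`). (MFD): `M`. (LIF) with `F₁ = RFE (idl f)` (`gal`, `fin`): `σ'`. `lam ∈ V`, and `X z, Y z ∈ V` for `F z ∈ L` (TOR), so the hypotheses of (FXL) hold for `σ'`. So `σ'` fixes `kapE L` and the `xnE L z`, `F z ∈ L`,
in particular those with `f z ∈ L`; they are in `RFE (idl f)`, where `σ' = σ`. -/
def Sr_UNR_E : Prop :=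
  ∀ (A B : ℤ) (V : ValuationSubring ℂ) (N : ℕ), CtxA A B V N → TorXE A B →
    ∀ f : ℕ, f ≠ 0 → ¬ 3 ∣ f → ∀ σ : ℂ ≃+* ℂ, FixK A B σ →
      (∀ y ∈ RFE (idl (A := A) (B := B) f), V.valuation y ≤ 1 → V.valuation (σ y - y) < 1) →
      ∀ y ∈ RFE (idl (A := A) (B := B) f), σ y = y

/-- (VAL3) the values of `RFE (f)` at `V`, 3 inert.

Uses ALP, UNR, RAM. PROOF. `P = idl 3` is prime (`OverI`: it is the contraction of the maximal ideal of `V`), `3 ∈ P`, `3 ∉ P²` (`9 ∤ 3`). An automorphism `σ` of `F = RFE (idl f)` extends to `ℂ` (`TorXE.ext` for `D = F` restricted to `ℚ`, or `u_AUE`). (UNR), (RAM). -/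
def Sr_VAL3_E : Prop :=
  ∀ (A B : ℤ) (V : ValuationSubring ℂ), CaseE4 A B → OverI V (idl (A := A) (B := B) 3) → TorXE A B →
    ∀ f : ℕ, f ≠ 0 → ¬ 3 ∣ f → ∀ y ∈ RFE (idl (A := A) (B := B) f), y ≠ 0 →
      ∃ k : ℤ, V.valuation y = V.valuation (3 : ℂ) ^ k

/-! ## Points of order a power of 3 -/

/-! ## Isogenies -/

/-! ## The ramified case: the multiplier -/

end

end Pool.Agent.NSR
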