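import Pool.Agent.ME.DefsE2
import Pool.Agent.NS.StIR
import Pool.Agent.ME.N.StIN
/-!
# MUX-NS, block IR (helper87, after helper36's `StIN.lean`): from the results of blocks E, H to the input (I3) of block K, ramified case

`3 = P²`, `D ≠ -3`. The weights are the signs `wP P`; `s = 1`.
-/

set_option autoImplicit false

namespace Pool.Agent.NSIR

open _root_.MU3 Pool.Agent.MU3 Pool.Agent.MU3A Pool.Agent.MU3B Pool.Agent.RI Pool.Agent.RID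
  Pool.Agent.MUX Pool.Agent.ME Pool.Agent.MUXK Pool.Agent.MUXI Pool.Agent.NS Pool.Agent.NSRD Pool.Agent.NSI
open Pool.Agent.MU3I (w3 zt)

noncomputable section

/-- the input from block E for one field `D` -/
structure EInpR_E {A B : ℤ} (P : Ideal (OO A B)) (V : ValuationSubring ℂ) (f : ℕ) {ι : Type}
    (R : RepsE A B (3 * f) ι) (u : ℂ) (n : ℕ) {D : IntermediateField ℚ ℂ} (h : kk A B ≤ D)
    (C : (letI := algC h; D ≃ₐ[kk A B] D) → ℂ) : Prop where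
  ne : C (letI := algC h; 1) ≠ 0
  conj : letI := algC h
    ∀ τ : D ≃ₐ[kk A B] D, ∃ y : D, (y : ℂ) = C 1 ∧ ((τ y : D) : ℂ) = C τ
  ew : letI := algC h
    ∀ w : OO A B → ℂ, IsTei6 P V w → ∀ g : (D ≃ₐ[kk A B] D) → ℤ,
      (∃ y ∈ D, y ^ 3 = ∏ᶠ τ : D ≃ₐ[kk A B] D, C τ ^ g τ) → ∀ τ' : D ≃ₐ[kk A B] D,
        V.valuation ((∑ᶠ τ : D ≃ₐ[kk A B] D, (g τ : ℂ) *
          TTNE R w (lvX 3 f n) (aX 3 f) h (τ * τ')) / u) ^ 2 ≤ V.valuation (3 : ℂ) ^ 3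

/-- (TE6) existence of the weights `w : (O/3)^* → μ_6`. PROOF. For `x ∉ P` there is exactly one unit `ζ` with `x - ζ ∈ 3 O`; `w x = emb ζ`. -/
def Sp_TE6_E : Prop :=
  ∀ (A B : ℤ) (P : Ideal (OO A B)) (V : ValuationSubring ℂ), CaseE3 A B → IsPN 3 P → OverI V P →
    ∃ w : OO A B → ℂ, IsTei6 P V w

/-- (EPR) the characters: `e = e0 w`, `IsEIE`. -/
def Sp_EPR_E : Prop :=
  ∀ (A B : ℤ) (P : Ideal (OO A B)) (V : ValuationSubring ℂ) (f : ℕ) (_ : SetE3 A B P V f)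
    (w : OO A B → ℂ) (_ : IsTei6 P V w) (e0 : OO A B → ℂ)
    (_ : e0 1 = 1) (_ : ∀ x y, e0 (x * y) = e0 x * e0 y)
    (_ : ∀ x y, x - y ∈ idl (A := A) (B := B) (lvX 3 f 0) → e0 x = e0 y)
    (_ : ∀ x, e0 x ≠ 0 ↔ IsCoprime x ((lvX 3 f 0 : ℕ) : OO A B))
    (_ : ∀ z, IsUnit z → e0 z = 1),
    IsEIE (idl (A := A) (B := B) (3 * f)) (fun x => e0 x * w x)

/-- (SUB) `K B_n ≤ RFE (lvR P f n)` for `n ≥ 1`; and the field condition of `Sq_EFIN`.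

USES Si_LAY, Si_IAF_E. PROOF. As `tn_SUB_E` (`NS/I_SUB.lean`): `lvR P f n ≤ idl (3 f)` (`P^(2n+1) ≤ P² = (3)`), so `K ≤ RFE (lvR)` by `mono`. `ζ`, `ζ^(3^(n+1)) = 1`, is in `RFE (lvR P f n)`: `σ` an automorphism of `ℂ` trivial on `RFE (lvR)`; act with `m = idl (lvX 3 f n)`, `ActE σ m a L L' mu`, also `ActE` for the larger ideal `lvR`, so (`triv`)
`a = sp c`, `c - 1 ∈ lvR`, `nm c ≡ 1` modulo `3^(n+1)`: `c = 1 + y`, `y ∈ P^(2n+1) = 3^n P`, `nm c = 1 + tr y + nm y`, `tr P ⊆ 3 ℤ`; (`zeta`) `σ ζ = ζ^(nI (sp c)) = ζ`. So `ζ ∈ RFE (lvR)` (AUF). -/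
def Sp_SUB_E : Prop :=
  ∀ (A B : ℤ) (P : Ideal (OO A B)) (V : ValuationSubring ℂ) (f : ℕ), SetE3 A B P V f →
    TorXE A B → (∃ (b : Ideal (OO A B)) (L : PeriodPair) (om : ℂ), IsNE b L om) →
    ∀ (K : IntermediateField ℚ ℂ), (∀ y ∈ K, y ∈ RFE (idl (A := A) (B := B) (3 * f))) →
    ∀ (n : ℕ) (Bn : IntermediateField ℚ ℂ), 1 ≤ n → IsLayer 3 n Bn →
    ∀ y ∈ K ⊔ Bn, y ∈ RFE (lvR P f n)

/-- (I3) one level, `T`. -/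
def Sp_I31_E : Prop :=
  ∀ (A B : ℤ) (P : Ideal (OO A B)) (V : ValuationSubring ℂ) (f : ℕ), SetE3 A B P V f → 4 ∣ f →
    TorXE A B → ∀ (ι : Type) [Fintype ι] (R : RepsE A B (3 * f) ι) (u el lam : ℂ),
    GoodR V (R.L R.i0) u el lam →
    ∀ (K : IntermediateField ℚ ℂ) (Bn : ℕ → IntermediateField ℚ ℂ)
    [FiniteDimensional ℚ K] [∀ n, FiniteDimensional ℚ ↥(K ⊔ Bn n)]
    (hB : BasX 3 (kk A B) K Bn)
    (_ : ¬ 3 ∣ Module.finrank (kk A B) (IntermediateField.extendScalars hB.hk))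
    (_ : ∀ y ∈ K, y ∈ RFE (idl (A := A) (B := B) (lvX 3 f 0)))
    (hk : ∀ n, kk A B ≤ K ⊔ Bn n) (hkK : kk A B ≤ K)
    (C : ∀ n, (letI := algC (hk n); ↥(K ⊔ Bn n) ≃ₐ[kk A B] ↥(K ⊔ Bn n)) → ℂ)
    (_ : ∀ n, 1 ≤ n → EInpR_E P V f R u n (hk n) (C n)) (c₀ : ℕ → ℂ)
    (mem : ∀ n, c₀ n ∈ K ⊔ Bn n) (_ : ∀ n, 1 ≤ n → c₀ n = C n (letI := algC (hk n); 1))
    (χ : (letI := algC hkK; (↥K ≃ₐ[kk A B] ↥K) →* (IsLocalRing.ResidueField V)ˣ)) (n₀ : ℕ),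
    ∃ n, n₀ ≤ n ∧ I3At (IsLocalRing.ResidueField V) 3 (kk A B) K Bn hkK χ 1 n (hk n) (c₀ n) (mem n)

/-- THE RESULT of block IR: the inputs of block K. -/
def Sp_INP_E : Prop :=
  ∀ (A B : ℤ) (P : Ideal (OO A B)) (V : ValuationSubring ℂ) (f : ℕ), SetE3 A B P V f → 4 ∣ f →
    TorXE A B → ∀ (ι : Type) [Fintype ι] (R : RepsE A B (3 * f) ι) (u el lam : ℂ),
    GoodR V (R.L R.i0) u el lam →
    ∀ (K₀ K : IntermediateField ℚ ℂ) (Bn : ℕ → IntermediateField ℚ ℂ)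
    [FiniteDimensional ℚ (kk A B)] [FiniteDimensional ℚ K] [∀ n, FiniteDimensional ℚ ↥(K ⊔ Bn n)]
    (_ : SetX 3 (kk A B) K₀ K Bn)
    (_ : ∀ y ∈ K₀, y ∈ RFE (idl (A := A) (B := B) (lvX 3 f 0)))
    (hk : ∀ n, kk A B ≤ K ⊔ Bn n) (hk₀ : ∀ n, kk A B ≤ K₀ ⊔ Bn n) (hkK : kk A B ≤ K₀)
    (S : Finset ℕ) (c c₀ : ℕ → ℂ) (n₁ : ℕ)
    (_ : Pool.Agent.MUXZ.InpW 3 (kk A B) K₀ K Bn hk hk₀ S c c₀ n₁)
    (C : ∀ n, (letI := algC (hk₀ n); ↥(K₀ ⊔ Bn n) ≃ₐ[kk A B] ↥(K₀ ⊔ Bn n)) → ℂ)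
    (_ : ∀ n, 1 ≤ n → EInpR_E P V f R u n (hk₀ n) (C n))
    (_ : ∀ n, 1 ≤ n → c₀ n = C n (letI := algC (hk₀ n); 1)),
    InpX (IsLocalRing.ResidueField V) 3 (kk A B) K₀ K Bn hk hk₀ hkK S c c₀ n₁

end

end Pool.Agent.NSIR
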