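import Pool.Agent.ME.DefsE2
import Pool.Agent.NS.StTN
import Pool.Agent.NS.StEN
import Pool.Agent.ME.X.StYX
/-!
# MUX-NS, block TN: TYPE (helper4). `PAPER_NS.md`, section 3, any class number

`3` inert in `k`, `V` above `3`, `v = V.valuation` (multiplicative). `L_i = R.L i`, `om_i = R.om i`, `L_0 = R.L R.i0 = om_0 emb O`, `mu_i = muX R i = om_i N(b_i)/om_0`,
`P_i(x, y) = PhiI (R.b i) e x y`. `σ` an automorphism of `ℂ / k` in the inertia group at `V` of a large Galois extension `F / k`. RESULT (`Sn_TYF`): all values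
`PhiK R e kk x y / (u om_0)` are `pi` times elements of the inertia field of `F`, on which `v` is unramified, and `v(pi)^8 v(3)^i = 1`.

IDEA. `σ` is trivial on `RF (m')`, `m'` prime to 3 (`Sn_RFIN`), so it acts on the points of level `m = 3^(j+1) m'` of every `L_i` as `d_i c`, `c ∈ O`, `c ≡ 1` modulo `m'`, `d_i = ±1`
(ACI). `σ u = d_0 u` (SGU), `σ mu_i = d_0 d_i mu_i` (SGM), `e(c) σ(P_i/om_i) = d_i P_i/om_i` (VAL; section 9 of PAPER_X), so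
`e(c) σ(P_i/(u om_0)) = P_i/(u om_0)` (VAK), and `e(c) = w(c)^i`. `tau = Σ w(x)⁻¹ r(x om_0/3)` (`r = -y/x²` the local parameter on `u L_0`): `σ tau = w(c) tau`,
`v(tau)^8 = v 3` (TAU). So `tau^i P_i/(u om_0)` is fixed by the inertia group.

Every statement is a `def Nt_X : Prop`; the module NST_X proves `theorem nt_X (h : ..) .. : Nt_X` in `Pool/Agent/NS/T_X.lean`, namespace `Pool.Agent.NST` (private lemmas in
`Pool.Agent.NST.X`), with the statements named under USES as hypotheses (fewer is fine). Unconditional and usable: `Pool.Agent.MU3B.b_X : St_X` (`MU3/BAll.lean`),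
`Pool.Agent.MU3A.ta_SCP`, `Pool.Agent.MUXU.u_X : Su_X` (`MUX/UAll.lean`), helper51's library `MUX/XLib.lean` (`emb_mul`, `nm_mul`, `nI_sp`, `nI_mem`, `IsLI.hasCM`, ..; import it), the lemmas of
`MUX/VX.lean` (imported). The statements `Sy_X` are those of `MUX/StYX.lean`, `Se_X` those of `NS/StEN.lean`. `MUXF.sp`, `MUXF.nI`, `MUXF.PhiI` are `MUX.sp`, `MUX.nI`, `MUX.PhiI` by `rfl`
(`MUXY.cqF`, `liF`, `eiF` convert the structures).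
-/

set_option autoImplicit false

namespace Pool.Agent.NST

open _root_.MU3 Pool.Agent.MU3A Pool.Agent.MU3B Pool.Agent.RI Pool.Agent.MUX Pool.Agent.ME Pool.Agent.MUXU
open OnePoint Pool.Agent.NS
open Pool.Agent.MUXV (GR InK)
open Pool.Agent.NSE (CtxN E3 su ru Rep)
open Pool.Agent.MUXY (ActN Dn)

noncomputable section

/-! ## Definitions -/

/-- `σ` acts on the points of level `m` of every lattice `L_i` as `d_i c`, `d_i = ±1`; in particular `L_i^σ = L_i` -/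
structure ActT_E {A B : ℤ} {n : ℕ} {ι : Type} (R : RepsE A B n ι) (m : ℕ) (σ : ℂ ≃+* ℂ)
    (c : OO A B) (d : ι → ℤ) : Prop where
  fix : FixK A B σ
  sgn : ∀ i, d i = 1 ∨ d i = -1
  act : ∀ i, ActN σ m (sp c) (R.L i) (R.L i) (d i * emb c)
  zeta : ∀ z : ℂ, z ^ m = 1 → σ z = z ^ nI (sp c)

/-! ## Roots of unity and the Teichmueller character -/

/-- (TEI) existence of the Teichmueller character.

USES RTU. PROOF. `v 3 < 1` (`OverI` for `x = 3`). `v(emb x) ≤ 1` (integral), `v(emb x) = 1` for `x ∉ (3)`, `v(emb x) ≤ v 3` for `x ∈ (3)`. `O/(3)` is a field (see `Se_CTX`: `3 ∣ nm x` only for `x ∈ (3)`) with `9` elements (`nI_sp`, `nm 3 = 9`), so `x^8 - 1 ∈ (3)` for `x ∉ (3)` (`FiniteField.pow_card_sub_one_eq_one`, or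
`pow_card_eq_one'` in the units; or by hand: `(a + b w)^3 ≡ a + b w^3` modulo 3 and `w^2 = A + B w`). So `v(emb x^8 - 1) ≤ v 3`. `X^8 - 1 = ∏ (X - ζ)`, `ζ` the eight 8th roots of unity. As the product of the `v(emb x - ζ)` is `< 1` there is `ζ` with `v(emb x - ζ) < 1`; it is unique (RTU, `r = 8`), for `ζ' ≠ ζ` `v(emb x - ζ') = 1`
(`v(ζ - ζ') ≤ 1` and not `< 1`), so `v(emb x - ζ) = v(emb x^8 - 1) ≤ v 3`. `w x := ζ`, `w x := 0` for `x ∈ (3)`. `one`, `mul`, `per`: uniqueness (`(3)` is prime). -/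
def Nt_TEI_E : Prop :=
  ∀ (A B : ℤ) (V : ValuationSubring ℂ), CaseE4 A B → OverI V (idl (A := A) (B := B) 3) →
    ∃ w : OO A B → ℂ, IsTei V w

/-! ## Fields -/

/-- (UNF) the inertia field is unramified.

USES Se_RNG-type facts (`Pool.Agent.MUXE.te_RNG : Sxe_RNG`). PROOF. As `Pool/Agent/MU3/E_RAM.lean` (use its lemmas `int_le`, `exists_prime`, `val_notMem`, `ord_le`, `le_ord`). `k' = kk A B`, `w` = the prime `{x ∈ 𝓞 F : v x < 1}` of `𝓞 F` (`exists_prime` for `z = 3`), `I = {σ ∈ Gal(F/k') : v(σ x - x) < 1 for all x ∈ F, v x ≤ 1}`,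
`I = w.inertia Gal(F/k')` (the computation of `hin` in `RAM.unram`: `x = n/d`, `d ∉ w`; the other inclusion is clear). `K₁ = fixedField I`. (1) `y ∈ KIn` implies `y ∈ K₁`: `σ ∈ I` extends to an automorphism `s` of `ℂ` (`u_AUE`; `ZET.ext_aut` in `MUX/C_ZET.lean`), `InI A B V F s`. (2) `w ∩ 𝓞 k' = 3 𝓞 k'` (`OverI`, `RingE.int`).
`Ideal.card_inertia_eq_ramificationIdxIn` for `Gal(F/k')`: `e(w/(3)) = |I|`; for `Gal(F/K₁) = I` (Galois theory; all of its elements are in the inertia group of `w`): `e(w/w₁) = |I|`, `w₁ = w ∩ 𝓞 K₁`. (3) `HeightOneSpectrum.valuation_liesOver`: `w.valuation F 3 = exp(-1)^|I|`, `w.valuation F y = (w₁.valuation K₁ y)^|I|`; `v y < 1` gives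
`w₁.valuation K₁ y < 1` (if it were `≥ 1` then `w.valuation F y ≥ 1`; `ord_le` for `y⁻¹`), so `≤ exp(-1)`, so `w.valuation F (y/3) ≤ 1` and `v(y/3) ≤ 1` (`ord_le`). (`K₁` as a number field: `NumberField K₁`, `Algebra K₁ F`, `IsGalois K₁ F`.) -/
def Nt_UNF_E : Prop :=
  ∀ (A B : ℤ) (V : ValuationSubring ℂ), CaseE4 A B → OverI V (idl (A := A) (B := B) 3) →
    ∀ (F : IntermediateField (kk A B) ℂ) [FiniteDimensional (kk A B) F] [IsGalois (kk A B) F],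
    ∀ w ∈ KIn A B V F, V.valuation w < 1 → V.valuation w ≤ V.valuation (3 : ℂ)

/-! ## Finiteness and algebraicity -/

/-- (FGV) the values are in a finitely generated group.

PROOF. `Pool.Agent.MUXT.fg_EI` (`Pool/Agent/MUX/XTF7.lean`) for `b = R.b i`: a finite set `T_i`. `T = ⋃_i (kk i/s) T_i` (`AddSubgroup.closure` and the additive map `x ↦ (kk i/s) x`; sums). -/
def Nt_FGV_E : Prop :=
  ∀ (A B : ℤ), CQ A B → ∀ (n : ℕ) (ι : Type) [Fintype ι] (R : RepsE A B n ι)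
    (g : Ideal (OO A B)) (e : OO A B → ℂ), g ≠ ⊥ → IsEI g e → ∀ (kk : ι → ℂ) (s : ℂ),
    ∃ T : Finset ℂ, ∀ x y, PhiKE R e kk x y / s ∈ AddSubgroup.closure (T : Set ℂ)

/-- (ALV) the values are algebraic.

USES Sy_ALP. PROOF. `PhiKE/(u om_0) = Σ kk_i (P_i/om_0)/u`; `kk_i` is a root of unity (`r ≠ 0`). `g = idl (3 f) ≠ ⊥, ⊤` (`nm (3 f) = 9 f² ≠ 1`), `nI (R.b i)` is prime to `3 f` (`R.cop`; Bezout). -/
def Nt_ALV_E : Prop :=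
  ∀ (A B : ℤ), CaseE A B → TorXE A B → ∀ (f : ℕ), f ≠ 0 → ∀ (ι : Type) [Fintype ι]
    (R : RepsE A B (3 * f) ι) (e : OO A B → ℂ), IsEI (idl (A := A) (B := B) (3 * f)) e →
    ∀ r : ℕ, r ≠ 0 → (∀ x, e x ≠ 0 → e x ^ r = 1) → ∀ kk : ι → ℂ, (∀ i, kk i ^ r = 1) →
    ∀ u : ℂ, IsAlgebraic ℚ u → ∀ x y : OnePoint ℚ,
      IsAlgebraic ℚ (PhiKE R e kk x y / (u * R.om R.i0))

/-- (ALT) the coordinates of torsion points are algebraic.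

USES Se_LEG, Se_COE. PROOF. (LEG): `w₁`, `w₂` of order two, `℘ w₁ = e`, `℘ w₂ - ℘ w₁ = u²`, `℘ w_i = xnE L w_i + 1/12 ∈ RFE (2)` (`Tor (idl 2) L w_i`: `emb (2 y) w_i = emb y (2 w_i)`, `IsLI.hasCM`). `lam = -3 e/u² - 1` (COE). `RFE m` is finite over `kk A B`, which is finite over `ℚ`, so its elements are algebraic; `u` is algebraic since `u²` is.
`N z ∈ L`, `z ∉ L`: `xnE L z ∈ RFE (idl N)`, `kapE L ∈ RFE (idl N)`, `g₂ = (1 + 1728 kapE)/12`, `g₃ = -g₂/18`, `℘'² = 4℘³ - g₂℘ - g₃`. -/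
def Nt_ALT_E : Prop :=
  ∀ (A B : ℤ), CaseE A B → TorXE A B → ∀ (V : ValuationSubring ℂ), V.valuation (3 : ℂ) < 1 →
    ∀ (b : Ideal (OO A B)) (L : PeriodPair) (om : ℂ), IsNE b L om →
    ∀ u e lam : ℂ, GoodN V L u e lam →
      u ^ 2 ∈ RFE (idl (A := A) (B := B) 2) ∧ e ∈ RFE (idl (A := A) (B := B) 2) ∧
      lam ∈ RFE (idl (A := A) (B := B) 2) ∧ IsAlgebraic ℚ u ∧
      ∀ N : ℕ, N ≠ 0 → ∀ z, z ∉ L.lattice → (N : ℂ) * z ∈ L.lattice →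
        IsAlgebraic ℚ (xu L u e z) ∧ IsAlgebraic ℚ (yu L u z) ∧ IsAlgebraic ℚ (ru L u e z)

/-! ## The action of an automorphism in the inertia group -/

/-- (ACI) the number `c` and the signs `d_i`.

USES Sy_MUU, Sy_BRI, Su_DET (`u_DET`). PROOF. `m = 3^(j+1) m'`. `Sn_RFIN_E` (second part): `σ y = y` for `y ∈ RFE (idl m')`. `TorXE.act (idl m)`: an ideal `a` prime to `idl m`, and `ActE σ (idl m) a L L' mu`, `IsNE b' L' om'` for every normalised `L`. For `L = L_0` this gives `ActE σ (idl m') a L L' mu` (`idl m ≤ idl m'`: `Tor (idl m') L z` implies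
`Tor (idl m) L z`; `IsCoprime`), so (`TorXE.triv` for `idl m'`) `a = sp c`, `c - 1 ∈ idl m'`. `c ∉ idl 3`: otherwise `sp c`, `idl m ≤ idl 3 ≠ ⊤`. For any `i`, `L = L_i`: `ActE σ (idl m) (sp c) L L' mu`, `kapE L' = σ (kapE L) = kapE L` (`kapE L ∈ RFE (idl m')`), both normalised, so `g₂`, `g₃` agree (`g₂ = (1728 kapE + 1)/12`) and (`u_DET`) `L'.lattice = L.lattice`.
(BRI): `ActN σ m (sp c) L L mu`. `IsQ (sp c) L L mu`, and `IsQ (sp c) L L (emb c)` (definition; `c ≠ 0`), so `mu = ± emb c` (MUU). `zeta`: `TorXE.zeta` with `M = m`, `m = idl m`, `L = L_0`. -/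
def Nt_ACI_E : Prop :=
  ∀ (A B : ℤ) (V : ValuationSubring ℂ), CaseE4 A B → OverI V (idl (A := A) (B := B) 3) →
    TorXE A B → Sn_RFIN_E →
    ∀ (n : ℕ) (ι : Type) (R : RepsE A B n ι) (j m' : ℕ), m' ≠ 0 → ¬ 3 ∣ m' → 2 ∣ m' →
    ∀ σ : ℂ ≃+* ℂ, FixK A B σ →
    (∀ y ∈ RFE (idl (A := A) (B := B) m'), y ∈ V → σ y - y ∈ V.nonunits) →
    (∀ y ∈ RFE (idl (A := A) (B := B) m'), σ y = y) ∧
    ∃ (c : OO A B) (d : ι → ℤ), c - 1 ∈ idl (A := A) (B := B) m' ∧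
      c ∉ idl (A := A) (B := B) 3 ∧ ActT_E R (3 ^ (j + 1) * m') σ c d

/-- (TCJ) conjugation of the coordinates `xu`, `yu`, `ru` on `L_0`.

PROOF. `L = L_0`, `d = d R.i0 = ±1`, `d² = 1`. `ActN.act` for `z`: `d emb c z ∉ L`, `℘(d emb c z) = σ(℘ z)`, `℘'(d emb c z) = σ(℘' z)`. `℘` is even, `℘'` is odd: `℘(emb c z) = σ(℘ z)`, `℘'(emb c z) = d σ(℘' z)`. `σ(u²) = u²`, `σ(u³) = d u³`, so `σ(xu z) = (℘(emb c z) - e)/u²`, `σ(yu z) = d ℘'(emb c z)/(2 d u³)`; `ru = -yu/xu²`. -/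
def Nt_TCJ_E : Prop :=
  ∀ (A B : ℤ) (n : ℕ) (ι : Type) (R : RepsE A B n ι) (m : ℕ) (σ : ℂ ≃+* ℂ) (c : OO A B)
    (d : ι → ℤ), ActT_E R m σ c d → ∀ u e : ℂ, u ≠ 0 → σ u = d R.i0 * u → σ e = e →
    ∀ z, (m : ℂ) * z ∈ (R.L R.i0).lattice → z ∉ (R.L R.i0).lattice →
      emb c * z ∉ (R.L R.i0).lattice ∧
      σ (xu (R.L R.i0) u e z) = xu (R.L R.i0) u e (emb c * z) ∧
      σ (yu (R.L R.i0) u z) = yu (R.L R.i0) u (emb c * z) ∧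
      σ (ru (R.L R.i0) u e z) = ru (R.L R.i0) u e (emb c * z)

/-- (SGU) the sign `d_0`.

USES Se_GRN, Se_TPN. PROOF. `f ≥ 6` (`2 absD ∣ f`, `absD ≥ 3`), so `m' ≥ 3`. `L = L_0 = om emb O` (`R.nl`, `R.b0`), `z = om/m'`: `m' z ∈ L`, `z, 2 z ∉ L` (`2 z = om emb x` gives `2 = m' x`, `m' ∣ 2`). `z, 2 z ∉ InK` (TPN (1) with `N = m'`). So `v(yu z) = 1` (`Pool.Agent.MU3.Val.v_y_unit` in `Pool/Agent/MU3/VRed.lean` for the point `ξ z`, with `MUXV.inE_iff`).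
`c z - z ∈ L` (`c - 1 = m' y`), `℘'(d emb c z) = σ(℘' z)` (`ActN.act`; `m = 3^(j+1) m'`) and `℘'(d emb c z) = d ℘'(z)` (periodic, odd). `σ u = s u`, `s = ±1` (`σ(u²) = u²`), `yu z = ℘' z/(2 u³)`: `σ(yu z) = d s yu z`. If `d s = -1`: `σ(yu z) - yu z = -2 yu z` has valuation `1`, against the last hypothesis. So `s = d`. -/
def Nt_SGU_E : Prop :=
  ∀ (A B : ℤ) (V : ValuationSubring ℂ) (f : ℕ), SetE4 A B V f → ∀ (ι : Type)
    (R : RepsE A B (3 * f) ι) (u e lam : ℂ), GoodN V (R.L R.i0) u e lam →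
    ∀ (j m' : ℕ), m' ≠ 0 → ¬ 3 ∣ m' → f ∣ m' → ∀ (σ : ℂ ≃+* ℂ) (c : OO A B) (d : ι → ℤ),
    c - 1 ∈ idl (A := A) (B := B) m' → ActT_E R (3 ^ (j + 1) * m') σ c d → σ (u ^ 2) = u ^ 2 →
    (V.valuation (yu (R.L R.i0) u (R.om R.i0 / m')) ≤ 1 →
      V.valuation (σ (yu (R.L R.i0) u (R.om R.i0 / m')) -
        yu (R.L R.i0) u (R.om R.i0 / m')) < 1) → σ u = d R.i0 * u

/-- (SGM) the signs `d_i`.

USES Sy_MUI, Sy_MUC, Sy_MUU (and `u_PHI`, `u_FUN`, `u_EQP`). PROOF. `μ = mu_i`. (MUI) `IsQ (cjI b_i) L_0 L_i μ`, (MUC) with `L' = L_0`, `M' = L_i` (`ActN.cj`): `IsQ (cjI b_i) L_0 L_i (σ μ)`, (MUU): `σ μ = s μ`, `s = ±1`. `μ L_0 ⊆ L_i`. `Φ` for `L_0 → L_0`, `Ψ` for `L_i → L_i` (PHI), (FUN): `Ψ(μ z) - σ μ Φ z ∈ L_i`, `σ μ L_0 ⊆ L_i`.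
`z = om_0/m'`: `z ∉ L_0`, `m z ∈ L_0` (`m = 3^(j+1) m'`). (EQP), `ActN.act`, `IsPhi.P`, `P'`: `Φ z - d_0 emb c z ∈ L_0`, and `emb c z - z ∈ L_0` (`c - 1 = m' y`), so `Φ z - d_0 z ∈ L_0`. `μ z = om_i N(b_i)/m' ∉ L_i`, even `2 μ z ∉ L_i`: `2 N(b_i) = m' x`, `x ∈ O`, would give `m' ∣ 2 N(b_i)`, `f ∣ 2 N(b_i)`, `f ∣ 2`
(`N(b_i)` is prime to `3 f`), but `f ≥ 3`. In the same way `Ψ(μ z) - d_i μ z ∈ L_i` (`m' μ z = μ om_0 ∈ L_i`). So `(d_i - s d_0) μ z ∈ L_i`; if `s d_0 = -d_i` then `2 μ z ∈ L_i`. So `s = d_0 d_i`. -/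
def Nt_SGM_E : Prop :=
  ∀ (A B : ℤ) (f : ℕ), CaseE A B → 3 ≤ f → ∀ (ι : Type) (R : RepsE A B (3 * f) ι) (j m' : ℕ),
    m' ≠ 0 → f ∣ m' → ∀ (σ : ℂ ≃+* ℂ) (c : OO A B) (d : ι → ℤ),
    c - 1 ∈ idl (A := A) (B := B) m' → ActT_E R (3 ^ (j + 1) * m') σ c d →
    ∀ i, σ (muXE R i) = d R.i0 * d i * muXE R i

/-- (VAL) conjugation of the values.

USES Sy_RA1. PROOF. `b = R.b i`, `L = L_i`, `om = om_i`, `g = idl (3 f) ≠ ⊤`, `m ∈ g`. `fn x := (d i : O) * c * x` satisfies `IsF b b om om (d i * emb c) fn`. (RA1) with `c := b`, `a = sp c`, `M = r.den`, `β = r.num` (`Rat.num_div_den`) for a cusp `r` with `Dn m r`, and `fun x => σ (e x) = e`: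
`nI b * e (fn (nI b)) * σ (PhiI b e ∞ r/om) = nI b * e (nI b) * (PhiI b e ∞ r/om)`. `e (fn (nI b)) = e (d i) e c e (nI b)`, `e (d i) = d i` (`one`, `neg`), `e (nI b) ≠ 0` (`supp`; `nI b` is prime to `3 f`, `R.cop`), `nI b ≠ 0`: `e c * σ (PhiI b e ∞ r/om) = d i * (PhiI b e ∞ r/om)`.
`PhiI b e x y = PhiI b e ∞ y - PhiI b e ∞ x` (unfold `PhiI`, `IcI`), `PhiI b e ∞ ∞ = 0`. -/
def Nt_VAL_E : Prop :=
  ∀ (A B : ℤ) (f : ℕ), CQ A B → f ≠ 0 → ∀ (ι : Type) (R : RepsE A B (3 * f) ι)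
    (e : OO A B → ℂ), IsEI (idl (A := A) (B := B) (3 * f)) e → ∀ m : ℕ, m ≠ 0 → 3 * f ∣ m →
    ∀ (σ : ℂ ≃+* ℂ) (c : OO A B) (d : ι → ℤ), ActT_E R m σ c d → (∀ x, σ (e x) = e x) →
    ∀ (i : ι) (x y : OnePoint ℚ), Dn m x → Dn m y →
      e c * σ (PhiI (R.b i) e x y / R.om i) = d i * (PhiI (R.b i) e x y / R.om i)

/-- (VAK) conjugation of the values of `PhiKE/(u om_0)`.

USES SGM, VAL. PROOF. `P_i/(u om_0) = (P_i/om_i) (mu_i/N(b_i))/u` (`mu_i = om_i N(b_i)/om_0`). Apply `σ`, (VAL), (SGM), `σ u = d_0 u`, `σ (kk i) = kk i`: `e(c) σ(kk_i P_i/(u om_0)) = kk_i d_i (P_i/om_i) d_0 d_i (mu_i/N(b_i))/(d_0 u) = kk_i P_i/(u om_0)`. Sum over `i` (`PhiKE`). -/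
def Nt_VAK_E : Prop :=
  ∀ (A B : ℤ) (f : ℕ), CaseE A B → 3 ≤ f → ∀ (ι : Type) [Fintype ι] (R : RepsE A B (3 * f) ι)
    (e : OO A B → ℂ), IsEI (idl (A := A) (B := B) (3 * f)) e → ∀ (j m' : ℕ), m' ≠ 0 → f ∣ m' →
    ∀ (σ : ℂ ≃+* ℂ) (c : OO A B) (d : ι → ℤ), c - 1 ∈ idl (A := A) (B := B) m' →
    ActT_E R (3 ^ (j + 1) * m') σ c d → (∀ x, σ (e x) = e x) →
    ∀ kk : ι → ℂ, (∀ i, σ (kk i) = kk i) → ∀ u : ℂ, u ≠ 0 → σ u = d R.i0 * u →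
    ∀ x y : OnePoint ℚ, Dn (3 ^ (j + 1) * m') x → Dn (3 ^ (j + 1) * m') y →
      e c * σ (PhiKE R e kk x y / (u * R.om R.i0)) = PhiKE R e kk x y / (u * R.om R.i0)

/-! ## The number `tau` -/

/-- (TAU) the number `tau`.

USES TRC, TCJ, ALT, Se_PTS. PROOF. `L = L_0 = om emb O`, `Y₀ = om/3 ∈ E3 L`. `T(x) := (w x)⁻¹ ru(emb x Y₀)` depends only on `x` modulo `(3)` (`IsTei.per`; `emb (3 y) Y₀ = om emb y ∈ L`, and `ru` is periodic: (PTS) for `x ∉ (3)`; for `x ∈ (3)`: `w x = 0`, `T(x) = 0`). `tau := ∑ᶠ q : O ⧸ idl 3, T(Quotient.out q)`, a finite sum (`finite_quot`).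
(1) For the `8` classes `q ≠ 0` (`nI (idl 3) = 9`, `nI_sp`): `v(T(x) - ru Y₀) < v(ru Y₀)`: `T(x) - ru Y₀ = (w x)⁻¹ (ru(x Y₀) - emb x ru Y₀) + (w x)⁻¹ (emb x - w x) ru Y₀`, (TRC), `v(emb x - w x) ≤ v 3 < 1`, `v(w x) = 1`. So `v(tau - 8 ru Y₀) < v(ru Y₀)`, `v 8 = 1`: `v(tau) = v(ru Y₀)`, `v(tau)^8 = v 3` (TRC).
(2) algebraic: (ALT) with `N = 3`, roots of unity. (3) `σ(T(x)) = (w x)⁻¹ ru(emb (c x) Y₀) = w(c) T(c x)` for `x ∉ (3)` ((TCJ): `m Y₀ ∈ L` as `3 ∣ m`; `w (c x) = w c w x`, `w c ≠ 0`), and both sides are `0` for `x ∈ (3)`. `q ↦ c q` is a bijection of `O/(3)` (`c` is invertible modulo `(3)`: `(3)` is maximal, `CtxN.max`): `σ tau = w(c) tau`. -/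
def Nt_TAU_E : Prop :=
  ∀ (A B : ℤ) (V : ValuationSubring ℂ), CtxN A B V → TorXE A B → ∀ (n : ℕ) (ι : Type)
    (R : RepsE A B n ι) (u e lam : ℂ), GoodN V (R.L R.i0) u e lam →
    ∀ w : OO A B → ℂ, IsTei V w →
    ∃ tau : ℂ, V.valuation tau ^ 8 = V.valuation (3 : ℂ) ∧ IsAlgebraic ℚ tau ∧
      ∀ (m : ℕ), 3 ∣ m → ∀ (σ : ℂ ≃+* ℂ) (c : OO A B) (d : ι → ℤ), ActT_E R m σ c d →
        c ∉ idl (A := A) (B := B) 3 → σ u = d R.i0 * u → σ e = e → (∀ x, σ (w x) = w x) →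
        σ tau = w c * tau

/-! ## The result -/

/-- (TYF) the result (`typ`, `unr`, `vpi` of `MUXHN.HypN`).

USES Sn_RFIN_E, Se_CTX, RTU, GLC, UNF, FGP, FGV, ALV, ALT, ACI, SGU, VAK, TAU (helper4). PROOF. `Q x y = PhiKE R e kk x y/(u om_0)`. (FGV), (FGP): pairs `S`, `D = 3^j N`. `m' = f N`, `m = 3^(j+1) m'`. `tau` (TAU; `CtxN` from Se_CTX). (GLC): `F ⊇ RFE (idl m')` finite Galois over `k`, with all `Q q`, `q ∈ S`, `tau`, `yu L_0 u (om_0/m')`, and all roots of unity of order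
dividing `8 r`. `KI = KIn A B V F`, `pi = tau^(-i)`. Let `σ` be in the inertia group `InI A B V F`. (ACI): `c, d`. `u² , e ∈ RFE (2) ≤ RFE (m')` (ALT; `2 ∣ f`). (SGU), (RTU), (VAK), (TAU): `e(c) σ(Q q) = Q q`, `σ tau = w(c) tau`, `e(c) = w(c)^i`, so `σ(Q q tau^i) = Q q tau^i`: in `KI`. All other values are in the group generated by the `Q q`. (UNF). -/
def Sn_TYF_E : Prop :=
  ∀ (A B : ℤ) (V : ValuationSubring ℂ) (f : ℕ), SetE4 A B V f → TorXE A B →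
    ∀ (ι : Type) [Fintype ι] (R : RepsE A B (3 * f) ι) (u el lam : ℂ),
    GoodN V (R.L R.i0) u el lam → ∀ w : OO A B → ℂ, IsTei V w →
    ∀ e : OO A B → ℂ, IsEI (idl (A := A) (B := B) (3 * f)) e → ∀ r : ℕ, ¬ 3 ∣ r →
    (∀ x, e x ≠ 0 → e x ^ r = 1) → ∀ i : ℕ,
    (∀ x, x - 1 ∈ idl (A := A) (B := B) f → x ∉ idl (A := A) (B := B) 3 → e x = w x ^ i) →
    ∀ kk : ι → ℂ, (∀ i, kk i ^ r = 1) →
    ∃ (pi : ℂ) (KI : Subfield ℂ),
      (∀ x y : OnePoint ℚ, ∃ w' ∈ KI, PhiKE R e kk x y / (u * R.om R.i0) = pi * w') ∧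
      (∀ w' ∈ KI, V.valuation w' < 1 → V.valuation w' ≤ V.valuation (3 : ℂ)) ∧
      V.valuation pi ^ 8 * V.valuation (3 : ℂ) ^ i = 1

end

end Pool.Agent.NST
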