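import Pool.Agent.ME.DefsE2
import Pool.Agent.NS.StTR
import Pool.Agent.ME.N.StTN
import Pool.Agent.ME.N.StRN
/-!
# MUX-NS, block TR: TYPE in the ramified case (helper87, after helper4's `StTN.lean`)

`3 = P²`, `D ≠ -3` (`CaseR A B`), `V` above `P`. RESULT: `Sq_TYF` (`NS/DefsR.lean`). IDEA as in `StTN.lean` (inert case): `σ` in the inertia group at `V` of a large Galois extension `F / k`
fixes `RF (m')`, `m'` prime to 3, so it acts on the points of level `m = 3^(j+1) m'` of every `L_i` as `d_i c`, `c ≡ 1` modulo `m'` (ACF). `σ u = d_0 u` (SGU), `σ mu_i = d_0 d_i mu_i`, `e(c) σ(PhiK/(u om_0)) = PhiK/(u om_0)` (`Nt_SGM`, `Nt_VAL`, `Nt_VAK` of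
`StTN.lean`, which are general), `e(c) = w(c)^i`, `w = wP P`. `tau = ru L_0 u e (om_0 δ/3)`, `δ = √D = dD A B`, a point of order `P`: `σ tau = w(c) tau`, `v(tau)^4 = v 3` (TAU). On the inertia field of `F` the additive valuation has values in `(1/2) ℤ` (UNF).

Every statement is a `def Sw_X : Prop`; the module NSTR_X proves `theorem tw_X (h : ..) : Sw_X` in `Pool/Agent/NS/TR_X.lean`, namespace `Pool.Agent.NSTR` (private lemmas in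
`Pool.Agent.NSTR.X`), with the statements named under USES as hypotheses (fewer is fine). Unconditional and usable: `Pool.Agent.MU3B.b_X : St_X` (`MU3/BAll.lean`),
`Pool.Agent.MU3A.ta_SCP`, `Pool.Agent.MUXU.u_X : Su_X` (`MUX/UAll.lean`), `MUX/XLib.lean`, the lemmas of `MUX/VX.lean`, `MUX/E_RNG.lean` (`te_RNG`), and helper58's block (`NS/RN_ALL.lean`, namespace `Pool.Agent.NSR`):
`rlgf : Sr_LGF`, `rgrl : Sr_GRL`, `rtor : Sr_TOR`, `rtr3 : Sr_TR3`, .. for lattices in Legendre form (`NSR.Leg L u e lam`; `GoodR` gives `Leg`: fields `u0`, `eq`).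
-/

set_option autoImplicit false

namespace Pool.Agent.NSTR

open _root_.MU3 Pool.Agent.MU3A Pool.Agent.MU3B Pool.Agent.RI Pool.Agent.MUX Pool.Agent.ME Pool.Agent.MUXU
open OnePoint Pool.Agent.NS Pool.Agent.NSRD
open Pool.Agent.MUXV (GR InK)
open Pool.Agent.NSE (su ru)
open Pool.Agent.NST (KIn ActT ActT_E)
open Pool.Agent.MUXY (ActN Dn)

noncomputable section

/-- (DEL) the element `δ = √D = 2 w - B` and the residues modulo `P`.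

PROOF. `δ² = B² + 4 A = -3 D'` (in `O`: `w² = A + B w`), `3 ∤ D'` (`B = 1`: `B² + 4A` is squarefree; `B = 0`: `A` is squarefree and `3 ∣ A`; `CQ.sqf`). `3 ∈ P`, so `δ² ∈ P`, `δ ∈ P`. `v(emb D') = 1` (`3 ∤ D'`: `D'` is not in `P`, since `P ∩ ℤ = 3 ℤ` because `1 ∉ P`; integral), so `v(δ)² = v(δ²) = v 3 < 1`.
For `x ∈ P`: `2 x = t + s δ` with `t = x + star x = 2 x.re + B x.im`, `s = x.im` integers. `t² = (2x - sδ)² ∈ P`.. so `t ∈ P ∩ ℤ = 3 ℤ` (`t = 2 x - s δ ∈ P`). (1) `x δ`: `2 x δ = t δ + s δ² ∈ 3 O`, so `x δ = 3 x δ - 2 x δ ∈ 3 O`. (2) `v(emb x) = v(2 x) ≤ max(v 3, v δ) = v δ` (`v 2 = 1`), so every element of `P²` has valuation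
`≤ (v δ)² = v 3` (`Submodule.mul_induction_on` or `Ideal.mul_le`..), and `v 3 < v δ` (as `v(δ)² = v 3`, `0 < v δ < 1`): `δ ∉ P²`. (3) `δ = ⟨-B, 2⟩`, `3 ∤ 2`: not in `3 O`. (4) residues: `nI P = 3` is the number of elements of `O/P` (`Submodule.cardQuot`); `0, 1, -1` are different modulo `P` (`1, 2 ∉ P`); so every `c` is congruent to one of them.
See `Pool/Agent/MUX/I_EPS3.lean` (`QI`, `wP_eq`) and `MUX/E_ONE.lean` line 281 for the same fact with `wP`. (5) `B² + 4A = -absD`. -/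
def Sw_DEL_E : Prop :=
  ∀ (A B : ℤ) (P : Ideal (OO A B)) (V : ValuationSubring ℂ), CaseE3 A B → IsPN 3 P → OverI V P →
    V.valuation (3 : ℂ) < 1 ∧ V.valuation (2 : ℂ) = 1 ∧
    dD A B * dD A B = ((-absD A B : ℤ) : OO A B) ∧ absD A B = 3 ∧
    dD A B ∈ P ∧ dD A B ∉ P ^ 2 ∧
    V.valuation (emb (dD A B)) ^ 2 = V.valuation (3 : ℂ) ∧
    (∀ x ∈ P, ∃ y, x * dD A B = 3 * y) ∧ (∀ y, dD A B ≠ 3 * y) ∧
    (∀ c : OO A B, c ∉ P → (wP P c = 1 ∨ wP P c = -1) ∧ c - ((wP P c : ℤ) : OO A B) ∈ P) ∧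
    (∀ x : OO A B, V.valuation (emb x) ≤ 1) ∧ ∀ n : ℕ, ¬ 3 ∣ n → V.valuation (n : ℂ) = 1

/-- (UNF) the inertia field has values in `(1/2) ℤ`. MODEL: `nt_UNF` (`NS/T_UNF.lean`, lemmas `UNF.inertia_lt`, `val_card`, `card_fixed` are public and general).

USES DEL. PROOF. As there: `w` = the prime of `𝓞 F`, `v` = the prime `w ∩ 𝓞 k` of `𝓞 k` (`val_card`), `e` the order of the inertia group. New: `x ∈ v.asIdeal` iff `x = emb z`, `z ∈ P` (`te_RNG`, field `int`; `OverI`). `δ' = ek δ ∈ 𝓞 k`. `v.valuation δ' ≥ exp (-1)`, because `δ' ∉ v.asIdeal²` (`δ ∉ P²`: the isomorphism `O ≅ 𝓞 k` maps `P` to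
`v.asIdeal`; `v.intValuation_le_pow_iff_mem` or similar). `3 D' = -δ²`, `v.valuation (D') ≤ 1`, so `v.valuation 3 ≥ v.valuation (3 D') = v.valuation(δ')² ≥ exp (-2)`; `w.valuation F 3 = (v.valuation 3)^e ≥ exp(-2)^e`. For `y` in the inertia field, `v y < 1`: `w.valuation F y = (v₁.valuation K₁ y)^e ≤ exp(-1)^e`, so
`w.valuation F (y²) ≤ exp(-2)^e ≤ w.valuation F 3`, `w.valuation F (y²/3) ≤ 1`, `v(y²/3) ≤ 1` (`ord_le`). -/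
def Sw_UNF_E : Prop :=
  ∀ (A B : ℤ) (P : Ideal (OO A B)) (V : ValuationSubring ℂ), CaseE3 A B → IsPN 3 P → OverI V P →
    ∀ (F : IntermediateField (kk A B) ℂ) [FiniteDimensional (kk A B) F] [IsGalois (kk A B) F],
    ∀ w ∈ KIn A B V F, V.valuation w < 1 → V.valuation w ^ 2 ≤ V.valuation (3 : ℂ)

/-- (ALT) algebraicity. MODEL: `nt_ALT` (`NS/T_ALT.lean`).

USES nothing new. PROOF. `GoodR` gives `NSR.Leg`. `w₁` with `℘ w₁ = e` from `rlgf` (`Sr_LGF`); `w₂` with `℘ w₂ = e + u²`: `℘` takes every value (`b_SUR`), then `℘' w₂ = 0` (`GoodR.eq`: `x w₂ = 1`), `2 w₂ ∈ L` (`b_ZER`). The rest as in the model (`lam = -3 e/u² - 1` by `Sr_LGF`). -/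
def Sw_ALT_E : Prop :=
  ∀ (A B : ℤ), CaseE A B → TorXE A B → ∀ (V : ValuationSubring ℂ), V.valuation (3 : ℂ) < 1 →
    ∀ (b : Ideal (OO A B)) (L : PeriodPair) (om : ℂ), IsNE b L om →
    ∀ u e lam : ℂ, GoodR V L u e lam →
      u ^ 2 ∈ RFE (idl (A := A) (B := B) 2) ∧ e ∈ RFE (idl (A := A) (B := B) 2) ∧
      lam ∈ RFE (idl (A := A) (B := B) 2) ∧ IsAlgebraic ℚ u ∧
      ∀ N : ℕ, N ≠ 0 → ∀ z, z ∉ L.lattice → (N : ℂ) * z ∈ L.lattice →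
        IsAlgebraic ℚ (xu L u e z) ∧ IsAlgebraic ℚ (yu L u z) ∧ IsAlgebraic ℚ (ru L u e z)

/-- (ACF) the number `c` and the signs `d_i`, for `σ` trivial on `RFE (idl m')`. MODEL: `nt_ACI` (`NS/T_ACI.lean`): the same proof without its first step.

USES Sy_MUU, Sy_BRI. -/
def Sw_ACF_E : Prop :=
  ∀ (A B : ℤ), CaseE A B → TorXE A B → ∀ (n : ℕ) (ι : Type) (R : RepsE A B n ι) (m m' : ℕ), m ≠ 0 →
    m' ∣ m → 2 ∣ m' → ∀ σ : ℂ ≃+* ℂ, FixK A B σ → (∀ y ∈ RFE (idl (A := A) (B := B) m'), σ y = y) →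
    ∃ (c : OO A B) (d : ι → ℤ), c - 1 ∈ idl (A := A) (B := B) m' ∧
      IsCoprime (sp c) (idl (A := A) (B := B) m) ∧ ActT_E R m σ c d

/-- (SGU) the sign `d_0`. MODEL: `nt_SGU` (`NS/T_SGU.lean`).

USES DEL. PROOF. As there. Good reduction: `rgrl` (`Sr_GRL`) gives `ξ` and `GR`; `z = om/m'` and `2 z` are not in the kernel of reduction: `Pool.Agent.MUXV.mem_of_nat_mul` with `v(m') = 1` (`3 ∤ m'`, DEL). `f ≥ 10` (`2 absD ∣ 3 f`, `absD ≥ 15`). -/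
def Sw_SGU_E : Prop :=
  ∀ (A B : ℤ) (P : Ideal (OO A B)) (V : ValuationSubring ℂ) (f : ℕ), SetE3 A B P V f →
    ∀ (ι : Type) (R : RepsE A B (3 * f) ι) (u e lam : ℂ), GoodR V (R.L R.i0) u e lam →
    ∀ (j m' : ℕ), m' ≠ 0 → ¬ 3 ∣ m' → 4 ∣ m' → f ∣ m' → ∀ (σ : ℂ ≃+* ℂ) (c : OO A B) (d : ι → ℤ),
    c - 1 ∈ idl (A := A) (B := B) m' → ActT_E R (3 ^ (j + 1) * m') σ c d → σ (u ^ 2) = u ^ 2 →
    (V.valuation (yu (R.L R.i0) u (R.om R.i0 / m')) ≤ 1 →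
      V.valuation (σ (yu (R.L R.i0) u (R.om R.i0 / m')) -
        yu (R.L R.i0) u (R.om R.i0 / m')) < 1) → σ u = d R.i0 * u

/-- (TAU) the number `t0 = -x/y` at the point `om/3` of exact order `3` of the normalised lattice `y² = x³ + 1`, and the sign `d`.

USES DEL. PROOF. `L = R.L R.i0 = om emb O` (`R.nl`, `R.b0`), `x = ℘`, `y = ℘'/2`, `y² = x³ + 1`. Homogeneity (`ta_SCP` for the unit `ζ`, `ζ L = L`): `℘(ζ z) = ℘(z)/ζ²`, `℘'(ζ z) = ℘'(z)/ζ³`, so `tnE L (ζ z) = ζ tnE L z` for a unit `ζ` of `O`, `z ∉ L`. (a) `Z = om emb δ/3`, `δ = dD A B`: `Z ∉ L`; for `ω = ζ` a unit of order 3 `ω - 1 ∈ P`, so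
`(ω - 1) Z ∈ L` (`x δ ∈ 3 O` for `x ∈ P`), `℘ Z = ℘(ω Z) = ℘(Z)/ω²`: `℘ Z = 0`, `(℘' Z)²/4 = 1`, `℘' Z = ± 2`, rational. `ActT`: `σ(℘' Z) = ℘'(d c Z)`, `c - s ∈ P`, `s = wP P c = ± 1`: `d c Z - d s Z ∈ L`, so `℘' Z = d s ℘' Z`: `d = s`. (b) `Y = om/3`, `Y ∉ L`, `3 Y ∈ L`: the 3-division polynomial of `y² = x³ + 1` is `3 x (x³ + 4)`
(`b_DUP`/`b_SD`: `℘(2Y) = ℘(Y)`: `℘(2z) = ((℘''/℘')/2)² - 2 ℘`, here `12 x y² = (3 x²)²..`, i.e. `3 x⁴ + 12 x = 0`). `x = ℘ Y ≠ 0`: otherwise `ω Y = ± Y` modulo `L` (`b_NEQ`: `℘(ωY) = ℘ Y`), `(ω ∓ 1)/3 ∈ O`, false. So `x³ = -4`, `y² = -3`, `t0 = -x/y`, `t0^6 = 16/(-27)`, `v(t0)^2 v(3) = 1`. (c) `c ∉ P`: there is a unit `ζ` with `c - ζ ∈ 3 O` (`(O/3)^*` has six elements, the units are incongruent: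
by `c ≡ a + b w` modulo 3, nine cases, `¬ 3 ∣ nm c`), `w c = w ζ = emb ζ` (`IsTei6.per`, `unit`), `c Y - ζ Y ∈ L`, `σ t0 = tnE (d c Y) = d tnE (ζ Y) = d ζ t0`. -/
def Sw_TAU_E : Prop :=
  ∀ (A B : ℤ) (P : Ideal (OO A B)) (V : ValuationSubring ℂ), CaseE3 A B → IsPN 3 P → OverI V P →
    ∀ (n : ℕ) (ι : Type) (R : RepsE A B n ι) (w : OO A B → ℂ), IsTei6 P V w →
    ∃ t0 : ℂ, V.valuation t0 ^ 2 * V.valuation (3 : ℂ) = 1 ∧ IsAlgebraic ℚ t0 ∧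
      ∀ (m : ℕ), 3 ∣ m → ∀ (σ : ℂ ≃+* ℂ) (c : OO A B) (d : ι → ℤ), ActT_E R m σ c d →
        c ∉ P → σ t0 = d R.i0 * w c * t0 ∧ d R.i0 = wP P c

/-- (TYF) the result is `Sq_TYF_E` (`ME/DefsE2.lean`). MODEL: `nt_TYF` (`NS/T_TYF.lean`), `tw_TYF` (`NS/TR_TYF.lean`).

USES Sq_RFIN_E, DEL, UNF, ALT, ACF, SGU, TAU, Nt_RTU, Nt_GLC, Nt_FGP, Nt_FGV_E, Nt_ALV_E, Nt_VAK_E. PROOF. As `nt_TYF`: one family `kk`, `Q x y = PhiKE R e kk x y/(3 u om)` (`VAK` for the number `3 u`: `σ(3 u) = d (3 u)`). `m' = 4 f N`, `m = 3^(j+1) m'`. `e x = e0 x * w x`, `e0 x ^ r = 1` or `0`, so `σ(e x) = e x` for `σ` in the inertia group (RTU for `e0`, and `w x` is a sixth root of unity or `0`, in `k`);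
`Nt_ALV_E` with `6 r`. `c`, `d` from ACF, `σ u = d u` (SGU; `σ(u²) = u²`: `u² ∈ RFE (2)`, ALT), `e(c) σ(Q q) = Q q` (VAK), `e c = w c ^ (3 i + 1)` (`c ≡ 1` modulo `m'`, `c ∉ P`), `σ t0 = d w(c) t0`, `d = wP P c`, and `w c ^ 3 = wP P c` (`v(w c ^ 3 - c^3) < 1`, `c^3 ≡ c ≡ wP P c` modulo `P`, both are `± 1`). `δ = emb (dD A B)`, `σ δ = δ`. `pi = (t0 δ u^(1 - i))⁻¹`: `σ pi = (d w(c) d^(1-i))⁻¹ pi = (d^i w(c))⁻¹ pi`
(`d² = 1`) `= w(c)^(-(3 i + 1)) pi`, so `σ(Q q/pi) = Q q/pi`. `v(pi)^4 v(3)^(1 - i) = 1`: `v(t0)^4 v(3)² = 1`, `v(δ)^4 = v(3)²`, and `v(u)^4 = v 3` (`GoodR` and `NrmE` give `v(u)^4 = v 3`: `g₂ = 0`: `lam² - lam + 1 = 0`, `g₃ = -4 = (4/27) u⁶ (1 + lam)(lam - 2)(2 lam - 1)`; `lam² = lam - 1`: `(1+lam)(lam-2)(2 lam-1) = ± 3 √-3`-type number of valuation `v(3)^(3/2)`: square it: `27^2 = u^12 (-27)`, i.e. `u^12 = -27`). -/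
def Sw_TYF_E : Prop := Sq_TYF_E

end

end Pool.Agent.NSTR
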