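import Pool.Agent.ME.DefsE2
import Pool.Agent.ME.Lib
import Pool.Agent.NS.T_ALV
import Pool.Agent.ME.N.StTN
import Pool.Agent.MUX.XLib
/-!
# MUX-NS, block TN, module ALV (helper83): the values are algebraic
-/

set_option autoImplicit false

namespace Pool.Agent.NST

open _root_.MU3 Pool.Agent.MU3A Pool.Agent.MU3B Pool.Agent.RI Pool.Agent.MUX Pool.Agent.ME Pool.Agent.MUXU
open OnePoint Pool.Agent.NS
open Pool.Agent.MUXV (GR InK)
open Pool.Agent.NSE (CtxN E3 su ru Rep)
open Pool.Agent.MUXY (ActN Dn)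

namespace ALV

lemma cop_E {A B : ℤ} {n : ℕ} {ι : Type} (R : RepsE A B n ι) (i : ι) :
    IsCoprime (sp ((nI (R.b i) : ℕ) : OO A B)) (idl (A := A) (B := B) n) := by
  obtain ⟨u, v, huv⟩ := Nat.isCoprime_iff_coprime.2 (R.cop i)
  rw [Ideal.isCoprime_iff_exists]
  refine ⟨(u : OO A B) * ((nI (R.b i) : ℕ) : OO A B), ?_, (v : OO A B) * ((n : ℕ) : OO A B),
    ?_, ?_⟩
  · exact Ideal.mul_mem_left _ _ (Ideal.mem_span_singleton_self _)
  · exact Ideal.mul_mem_left _ _ (Ideal.mem_span_singleton_self _)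
  · have h2 := congrArg (fun z : ℤ => (z : OO A B)) huv
    push_cast at h2
    exact h2

end ALV

theorem nt_ALV_E (h : Pool.Agent.MUXY.Sy_ALP_E) : Nt_ALV_E := by
  intro A B hC hX f hf ι _ R e he r hr her kk hkk u hu x y
  have h3f : 3 * f ≠ 0 := by omega
  have hbot : idl (A := A) (B := B) (3 * f) ≠ ⊥ := ALV.ne_bot hC h3f
  have htop : idl (A := A) (B := B) (3 * f) ≠ ⊤ := ALV.ne_top hC (by omega)
  have hval := fun i => (h A B hC hX (3 * f) ι inferInstance R _ e hbot htop he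
    (fun i => ALV.cop_E R i) r hr her i x y).2
  have hsum : PhiKE R e kk x y / (u * R.om R.i0) =
      ∑ i, kk i * (PhiI (R.b i) e x y / R.om R.i0) * u⁻¹ := by
    rw [PhiKE, Finset.sum_div]
    refine Finset.sum_congr rfl fun i _ => ?_
    rw [div_eq_mul_inv, mul_inv, div_eq_mul_inv]
    ring
  rw [hsum]
  refine ALV.sum _ _ fun i _ => ?_
  have hk : IsAlgebraic ℚ (kk i) := by
    refine IsAlgebraic.of_pow (n := r) (Nat.pos_of_ne_zero hr) ?_
    rw [hkk i]
    exact isAlgebraic_one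
  exact (hk.mul (hval i)).mul hu.inv

end Pool.Agent.NST
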