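import Pool.Agent.ME.DefsE2
import Pool.Agent.ME.Lib
import Pool.Agent.NS.T_FGV
import Pool.Agent.ME.N.StTN
import Pool.Agent.MUX.XTF7
/-!
# MUX-NS, block TN: module FGV, the values are in a finitely generated group
-/

set_option autoImplicit false

namespace Pool.Agent.NST

open _root_.MU3 Pool.Agent.MU3A Pool.Agent.MU3B Pool.Agent.RI Pool.Agent.MUX Pool.Agent.ME Pool.Agent.MUXU
open OnePoint Pool.Agent.NS
open Pool.Agent.MUXV (GR InK)
open Pool.Agent.NSE (CtxN E3 su ru Rep)
open Pool.Agent.MUXY (ActN Dn)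

noncomputable section

/-- FGV. -/
theorem nt_FGV_E : Nt_FGV_E := by
  classical
  intro A B h n ι _ R g e hg he kk s
  have hex : ∀ i : ι, ∃ S : Finset ℂ, ∀ x y,
      PhiI (R.b i) e x y ∈ AddSubgroup.closure (S : Set ℂ) := fun i =>
    Pool.Agent.MUXT.fg_EI A B (Pool.Agent.MUXY.cqF h) (R.b i) g e (R.nl i).b_ne hg
      (Pool.Agent.MUXY.eiF he)
  choose S hS using hex
  refine ⟨Finset.univ.biUnion fun i => (S i).image fun z => kk i / s * z, fun x y => ?_⟩
  have key : ∀ i z, z ∈ AddSubgroup.closure (S i : Set ℂ) → kk i / s * z ∈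
      AddSubgroup.closure
        ((Finset.univ.biUnion fun i => (S i).image fun z => kk i / s * z : Finset ℂ) : Set ℂ) := by
    intro i z hz
    have hle : AddSubgroup.closure (S i : Set ℂ) ≤ (AddSubgroup.closure
        ((Finset.univ.biUnion fun i => (S i).image fun z => kk i / s * z : Finset ℂ) :
          Set ℂ)).comap (AddMonoidHom.mulLeft (kk i / s)) := by
      rw [AddSubgroup.closure_le]
      intro t ht
      refine AddSubgroup.subset_closure ?_
      rw [Finset.mem_coe, Finset.mem_biUnion]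
      exact ⟨i, Finset.mem_univ _, Finset.mem_image.2 ⟨t, ht, rfl⟩⟩
    exact hle hz
  have e1 : PhiKE R e kk x y / s = ∑ i, kk i / s * PhiI (R.b i) e x y := by
    unfold PhiKE
    rw [Finset.sum_div]
    exact Finset.sum_congr rfl fun i _ => by ring
  rw [e1]
  exact AddSubgroup.sum_mem _ fun i _ => key i _ (hS i x y)

end

end Pool.Agent.NST
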