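import Pool.Agent.ME.DefsE2
import Pool.Agent.ME.Lib
import Pool.Agent.NS.T_SGU
import Pool.Agent.ME.N.StTN
import Pool.Agent.MUX.XLib
/-!
# MUX-NS, block TN, module SGU: the sign `d_0`
-/

set_option autoImplicit false

namespace Pool.Agent.NST

open _root_.MU3 Pool.Agent.MU3A Pool.Agent.MU3B Pool.Agent.RI Pool.Agent.MUX Pool.Agent.ME Pool.Agent.MUXU
open OnePoint Pool.Agent.NS
open Pool.Agent.MUXV (GR InK)
open Pool.Agent.NSE (CtxN E3 su ru Rep)
open Pool.Agent.MUXY (ActN Dn)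

noncomputable section

namespace SGU

theorem six_le_E {A B : ℤ} {V : ValuationSubring ℂ} {f : ℕ} (hS : SetE4 A B V f) : 6 ≤ f := by
  have h1 := absD_ge hS.case.toCQ
  have h2 := Int.le_of_dvd (by have := hS.f0; omega) hS.fD
  omega

end SGU

open SGU in
/-- (SGU) the sign `d_0` -/
theorem nt_SGU_E (hG : NSE.Se_GRN) (hT : NSE.Se_TPN) : Nt_SGU_E := by
  intro A B V f hS ι R u e lam hGd j m' hm0 hm3 hfm σ c d hcm hAct hσu hlast
  have hC := hS.case.toCQ
  have hf6 := six_le_E hS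
  have hm6 : 6 ≤ m' := le_trans hf6 (Nat.le_of_dvd (Nat.pos_of_ne_zero hm0) hfm)
  set L := R.L R.i0 with hL
  set om := R.om R.i0 with hom
  have hmem : ∀ z : ℂ, z ∈ L.lattice ↔ ∃ x : OO A B, z = om * emb x := by
    intro z
    rw [(R.nl R.i0).mem, R.b0]
    exact ⟨fun ⟨x, _, hx⟩ => ⟨x, hx⟩, fun ⟨x, hx⟩ => ⟨x, trivial, hx⟩⟩
  have hom0 : om ≠ 0 := (R.nl R.i0).om_ne
  have hmC : (m' : ℂ) ≠ 0 := Nat.cast_ne_zero.2 hm0
  -- `v 3 < 1`
  have h3 : V.valuation (3 : ℂ) < 1 := by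
    have h1 : (3 : OO A B) ∈ idl (A := A) (B := B) 3 := Ideal.subset_span (by simp)
    have h2 := (hS.hV 3).2 h1
    rw [ValuationSubring.mem_nonunits_iff] at h2
    have h4 := Pool.Agent.MUX.emb_natCast hC 3
    push_cast at h4
    rwa [h4] at h2
  obtain ⟨ξ, G⟩ := hG V L u e lam hGd h3
  obtain ⟨hT1, -⟩ := hT V L u e lam hGd h3
  obtain ⟨-, hT2⟩ := hT1 m' hm3
  set z : ℂ := om / m' with hz
  have hmz : (m' : ℂ) * z = om := by rw [hz]; field_simp
  have homL : om ∈ L.lattice := (hmem om).2 ⟨1, by rw [Pool.Agent.MUX.emb_one hC, mul_one]⟩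
  have hzz : z + z ∉ L.lattice := by
    intro h
    obtain ⟨x, hx⟩ := (hmem _).1 h
    have h1 : (m' : ℂ) * emb x = 2 := by
      have h2 : om * ((m' : ℂ) * emb x) = om * 2 := by
        linear_combination (-(m' : ℂ)) * hx + 2 * hmz
      exact mul_left_cancel₀ hom0 h2
    have h2 : ((m' : ℕ) : OO A B) * x = ((2 : ℕ) : OO A B) := by
      apply Pool.Agent.MUX.emb_inj hC
      rw [Pool.Agent.MUX.emb_mul hC, Pool.Agent.MUX.emb_natCast hC,
        Pool.Agent.MUX.emb_natCast hC, h1]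
      norm_num
    have h4 := congrArg nm h2
    rw [Pool.Agent.MUX.nm_mul hC] at h4
    have h5 := Pool.Agent.MUX.nm_intCast (A := A) (B := B) (m' : ℤ)
    have h6 := Pool.Agent.MUX.nm_intCast (A := A) (B := B) (2 : ℤ)
    rw [Int.cast_natCast] at h5
    have h7 : ((2 : ℤ) : OO A B) = ((2 : ℕ) : OO A B) := by push_cast; rfl
    rw [h7] at h6
    rw [h5, h6] at h4
    have h8 : ((m' : ℤ) ^ 2) ∣ 2 ^ 2 := ⟨_, h4.symm⟩
    have h9 := Int.le_of_dvd (by norm_num) h8
    have h10 : (6 : ℤ) ≤ m' := by exact_mod_cast hm6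
    nlinarith
  have hzL : z ∉ L.lattice := fun h => hzz (add_mem h h)
  have hzK : ¬ InK V L (xu L u e) z := fun h => hzL (hT2 z (by rw [hmz]; exact homL) h)
  have hzzK : ¬ InK V L (xu L u e) (z + z) := fun h => hzz (hT2 (z + z) (by
    rw [mul_add, hmz]
    exact add_mem homL homL) h)
  -- `v (yu z) = 1`
  have hy1 : V.valuation (yu L u z) = 1 := by
    obtain ⟨hns, hxi⟩ := G.some z hzL
    have e1 := (Pool.Agent.MUXV.inE_iff G z).not.2 hzK
    have e2 := (Pool.Agent.MUXV.inE_iff G (z + z)).not.2 hzzK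
    rw [map_add, hxi] at e2
    rw [hxi] at e1
    exact Pool.Agent.MU3.Val.v_y_unit G.int G.two G.disc hns e1 e2
  -- the action
  have hact := hAct.act R.i0
  have hmzL : ((3 ^ (j + 1) * m' : ℕ) : ℂ) * z ∈ L.lattice := by
    have h1 : ((3 ^ (j + 1) * m' : ℕ) : ℂ) * z = (3 ^ (j + 1) : ℕ) * om := by
      rw [← hmz]; push_cast; ring
    rw [h1, ← nsmul_eq_mul]
    exact nsmul_mem homL _
  obtain ⟨-, -, hP'⟩ := hact.act z hmzL hzL
  have hcz : emb c * z - z ∈ L.lattice := by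
    obtain ⟨y, hy⟩ := Ideal.mem_span_singleton'.1 hcm
    refine (hmem _).2 ⟨y, ?_⟩
    have h1 : emb c - 1 = emb y * m' := by
      have h2 := congrArg emb hy
      rw [Pool.Agent.MUX.emb_mul hC, Pool.Agent.MUX.emb_natCast hC, Pool.Agent.MUX.emb_sub hC,
        Pool.Agent.MUX.emb_one hC] at h2
      exact h2.symm
    have h2 : emb c * z - z = (emb c - 1) * z := by ring
    rw [h2, h1, mul_assoc, hmz, mul_comm]
  have hder : σ (L.derivWeierstrassP z) = d R.i0 * L.derivWeierstrassP z := by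
    rw [← hP']
    rcases hAct.sgn R.i0 with hd | hd
    · rw [hd]
      push_cast
      rw [one_mul, one_mul]
      exact der_congr L hcz
    · rw [hd]
      push_cast
      have h1 : -1 * emb c * z = -(emb c * z) := by ring
      rw [h1, L.derivWeierstrassP_neg, der_congr L hcz]
      ring
  have hu0 := hGd.u0
  have hd2 : (d R.i0 : ℂ) * d R.i0 = 1 := by
    rcases hAct.sgn R.i0 with hd | hd <;> rw [hd] <;> norm_num
  have hs : σ u = d R.i0 * u ∨ σ u = -(d R.i0 * u) := by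
    have h1 : (σ u) ^ 2 = (d R.i0 * u) ^ 2 := by
      rw [← map_pow, hσu]
      linear_combination (-(u ^ 2)) * hd2
    exact sq_eq_sq_iff_eq_or_eq_neg.1 h1
  rcases hs with hs | hs
  · exact hs
  · exfalso
    have hσy : σ (yu L u z) = -yu L u z := by
      unfold yu
      rw [map_div₀, map_mul, map_pow, hs, hder, map_ofNat]
      have hd0 : (d R.i0 : ℂ) ≠ 0 := fun h0 => by
        rw [h0, zero_mul] at hd2
        exact zero_ne_one hd2
      rw [div_eq_iff (by
        refine mul_ne_zero two_ne_zero (pow_ne_zero _ ?_)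
        exact neg_ne_zero.2 (mul_ne_zero hd0 hu0))]
      have h5 : (d R.i0 : ℂ) ^ 3 = d R.i0 := by linear_combination (d R.i0 : ℂ) * hd2
      have h6 : (2 : ℂ) * (-(d R.i0 * u)) ^ 3 = -(d R.i0 * (2 * u ^ 3)) := by
        linear_combination (-2 * u ^ 3) * h5
      rw [h6]
      field_simp
    have h1 := hlast hy1.le
    rw [hσy] at h1
    have h2 : -yu L u z - yu L u z = -(2 * yu L u z) := by ring
    rw [h2, Valuation.map_neg, map_mul, hy1, G.two, one_mul] at h1
    exact lt_irrefl _ h1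

end

end Pool.Agent.NST
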