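import Pool.Agent.ME.DefsE2
import Pool.Agent.ME.Lib
import Pool.Agent.NS.T_TEI
import Pool.Agent.ME.N.StTN
import Pool.Agent.ME.N.I_TEI
/-!
# MUX-NS, block TN, module TEI (helper61): existence of the Teichmueller character

The statement is the same as `Sn_TEI` of block IN, proved by helper80 in `Pool/Agent/NS/I_TEI.lean`.
-/

set_option autoImplicit false

namespace Pool.Agent.NST

open _root_.MU3 Pool.Agent.MU3A Pool.Agent.MU3B Pool.Agent.RI Pool.Agent.MUX Pool.Agent.ME Pool.Agent.MUXU
open OnePoint Pool.Agent.NS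
open Pool.Agent.MUXV (GR InK)
open Pool.Agent.NSE (CtxN E3 su ru Rep)
open Pool.Agent.MUXY (ActN Dn)

noncomputable section

/-- (TEI) existence of the Teichmueller character -/
theorem nt_TEI_E : Nt_TEI_E :=
  fun A B V hC hV => Pool.Agent.NSI.tn_TEI_E A B V hC hV

end

end Pool.Agent.NST
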